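import Pool.Agent.H421Z.TExt.Gen

set_option autoImplicit false

namespace Pool.Agent.H421Z.TExt

open Filter Topology Pool.Agent.H421Z.TEmb

universe u v

/-- A weak bound for skew set pair systems. -/
theorem skew (b a : ℕ) : ∃ h : ℕ, ∀ (L : Type u) [DecidableEq L] (J : Finset ℕ) (A B : ℕ → Finset L),
    (∀ j ∈ J, (A j).card ≤ a) → (∀ j ∈ J, (B j).card ≤ b) → (∀ j ∈ J, Disjoint (A j) (B j)) →
    (∀ i ∈ J, ∀ j ∈ J, i < j → ¬ Disjoint (A j) (B i)) → J.card ≤ h := by
  induction a with
  | zero =>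
    refine ⟨1, ?_⟩
    intro L _ J A B hA _ _ hx
    rw [Finset.card_le_one]
    intro i hi j hj
    by_contra hne
    rcases lt_or_gt_of_ne hne with h | h
    · apply hx i hi j hj h
      have : A j = ∅ := Finset.card_eq_zero.mp (Nat.le_zero.mp (hA j hj))
      rw [this]; exact Finset.disjoint_empty_left _
    · apply hx j hj i hi h
      have : A i = ∅ := Finset.card_eq_zero.mp (Nat.le_zero.mp (hA i hi))
      rw [this]; exact Finset.disjoint_empty_left _
  | succ a ih =>
    obtain ⟨h, hh⟩ := ih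
    refine ⟨1 + b * h, ?_⟩
    intro L _ J A B hA hB hd hx
    rcases J.eq_empty_or_nonempty with rfl | hne
    · simp
    set i0 := J.min' hne with hi0
    have hi0J : i0 ∈ J := J.min'_mem hne
    have hsub : J ⊆ insert i0 ((B i0).biUnion (fun x => J.filter (fun j => x ∈ A j))) := by
      intro j hj
      by_cases hji : j = i0
      · rw [hji]; exact Finset.mem_insert_self _ _
      · have hlt : i0 < j := lt_of_le_of_ne (J.min'_le j hj) (Ne.symm hji)
        have := hx i0 hi0J j hj hlt
        rw [Finset.not_disjoint_iff] at this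
        obtain ⟨x, hxA, hxB⟩ := this
        apply Finset.mem_insert_of_mem
        rw [Finset.mem_biUnion]
        exact ⟨x, hxB, Finset.mem_filter.mpr ⟨hj, hxA⟩⟩
    have hcard : ∀ x : L, (J.filter (fun j => x ∈ A j)).card ≤ h := by
      intro x
      apply hh L (J.filter (fun j => x ∈ A j)) (fun j => (A j).erase x) B
      · intro j hj
        rw [Finset.mem_filter] at hj
        rw [Finset.card_erase_of_mem hj.2]
        have := hA j hj.1
        omega
      · intro j hj
        exact hB j (Finset.mem_filter.mp hj).1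
      · intro j hj
        exact Finset.disjoint_of_subset_left (Finset.erase_subset _ _) (hd j (Finset.mem_filter.mp hj).1)
      · intro i hi j hj hlt
        rw [Finset.mem_filter] at hi hj
        have := hx i hi.1 j hj.1 hlt
        rw [Finset.not_disjoint_iff] at this ⊢
        obtain ⟨y, hyA, hyB⟩ := this
        refine ⟨y, Finset.mem_erase.mpr ⟨?_, hyA⟩, hyB⟩
        rintro rfl
        exact (Finset.disjoint_left.mp (hd i hi.1)) hi.2 hyB
    calc J.card ≤ (insert i0 ((B i0).biUnion (fun x => J.filter (fun j => x ∈ A j)))).card :=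
          Finset.card_le_card hsub
      _ ≤ ((B i0).biUnion (fun x => J.filter (fun j => x ∈ A j))).card + 1 := Finset.card_insert_le _ _
      _ ≤ (B i0).card * h + 1 := by
          have := Finset.card_biUnion_le_card_mul (B i0) (fun x => J.filter (fun j => x ∈ A j)) h
            (fun x _ => hcard x)
          omega
      _ ≤ 1 + b * h := by
          have := Nat.mul_le_mul_right h (hB i0 hi0J)
          omega


theorem pigeon {ι : Type u} {Λ : Type v} [Countable Λ] (B : Set ι) (hB : ¬ B.Countable) (g : ι → Λ) :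
    ∃ a, ¬ {β ∈ B | g β = a}.Countable := by
  by_contra hcon
  push Not at hcon
  apply hB
  have : B = ⋃ a, {β ∈ B | g β = a} := by
    ext β; simp
  rw [this]
  exact Set.countable_iUnion hcon

theorem delta_disj {ι : Type u} {Λ : Type v} [Nonempty Λ] (B : Set ι) (hB : ¬ B.Countable)
    (E : ι → Finset ι) (lab : ι → ι → Λ) (hE : ∀ α, {β ∈ B | α ∈ E β}.Countable) :
    ∃ (T : Set ι) (w : ι → Λ), T ⊆ B ∧ ¬ T.Countable ∧
      ∀ β ∈ T, ∀ α ∈ E β, α ≠ β → α ∉ T ∧ w α = lab β α := by
  classical
  let S : Set (Set ι) := {T | T ⊆ B ∧ ∀ β ∈ T, ∀ γ ∈ T, β ≠ γ →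
    Disjoint (insert β (E β)) (insert γ (E γ))}
  obtain ⟨T, hT⟩ := zorn_subset S (by
    intro c hc hch
    refine ⟨⋃₀ c, ⟨?_, ?_⟩, fun s hs => Set.subset_sUnion_of_mem hs⟩
    · exact Set.sUnion_subset fun s hs => (hc hs).1
    · rintro β ⟨s, hs, hβ⟩ γ ⟨s', hs', hγ⟩ hne
      rcases hch.total hs hs' with h | h
      · exact (hc hs').2 β (h hβ) γ hγ hne
      · exact (hc hs).2 β hβ γ (h hγ) hne)
  obtain ⟨hT1, hT2⟩ := hT.prop
  have hunc : ¬ T.Countable := by
    intro hc
    have h1 : (⋃ β ∈ T, ((insert β (E β) : Finset ι) : Set ι)).Countable :=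
      hc.biUnion fun β _ => (Finset.finite_toSet _).countable
    set U := ⋃ β ∈ T, ((insert β (E β) : Finset ι) : Set ι) with hU
    have h2 : (U ∪ ⋃ α ∈ U, {β ∈ B | α ∈ E β}).Countable := h1.union (h1.biUnion fun α _ => hE α)
    have h3 : ¬ B ⊆ U ∪ ⋃ α ∈ U, {β ∈ B | α ∈ E β} := fun h => hB (h2.mono h)
    rw [Set.not_subset] at h3
    obtain ⟨γ, hγB, hγ⟩ := h3
    have hd : ∀ β ∈ T, Disjoint (insert β (E β)) (insert γ (E γ)) := by
      intro β hβ
      rw [Finset.disjoint_left]
      intro α h4 h5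
      have hαU : α ∈ U := Set.mem_biUnion hβ h4
      rcases Finset.mem_insert.mp h5 with h | h
      · exact hγ (Or.inl (h ▸ hαU))
      · exact hγ (Or.inr (Set.mem_biUnion hαU ⟨hγB, h⟩))
    have hmem : insert γ T ∈ S := by
      refine ⟨Set.insert_subset hγB hT1, ?_⟩
      rintro β (rfl | hβ) β' (rfl | hβ') hne
      · exact absurd rfl hne
      · exact (hd β' hβ').symm
      · exact hd β hβ
      · exact hT2 β hβ β' hβ' hne
    have := hT.le_of_ge hmem (Set.subset_insert γ T) (Set.mem_insert γ T)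
    exact hγ (Or.inl (Set.mem_biUnion this (Finset.mem_insert_self _ _)))
  refine ⟨T, fun α => if h : ∃ β ∈ T, α ∈ E β then lab h.choose α else Classical.arbitrary Λ,
    hT1, hunc, fun β hβ α hα hne => ⟨fun hαT => ?_, ?_⟩⟩
  · exact Finset.disjoint_left.mp (hT2 α hαT β hβ hne) (Finset.mem_insert_self _ _)
      (Finset.mem_insert_of_mem hα)
  · have h : ∃ β ∈ T, α ∈ E β := ⟨β, hβ, hα⟩
    simp only [dif_pos h]
    have : h.choose = β := by
      by_contra hn
      exact Finset.disjoint_left.mp (hT2 _ h.choose_spec.1 β hβ hn)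
        (Finset.mem_insert_of_mem h.choose_spec.2) (Finset.mem_insert_of_mem hα)
    rw [this]

theorem delta_card {ι : Type u} {Λ : Type v} [Nonempty Λ] [Countable Λ] (lab : ι → ι → Λ) (N : ℕ) :
    ∀ (B : Set ι) (E : ι → Finset ι), ¬ B.Countable → (∀ β ∈ B, (E β).card ≤ N) →
    ∃ (T : Set ι) (w : ι → Λ), T ⊆ B ∧ ¬ T.Countable ∧
      ∀ β ∈ T, ∀ α ∈ E β, α ≠ β → α ∉ T ∧ w α = lab β α := by
  classical
  induction N with
  | zero =>
    intro B E hB hE
    refine delta_disj B hB E lab fun α => ?_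
    have : {β ∈ B | α ∈ E β} = ∅ := by
      ext β
      simp only [Set.mem_ofPred_eq, Set.mem_empty_iff_false, iff_false, not_and]
      intro hβ
      rw [Finset.card_eq_zero.mp (Nat.le_zero.mp (hE β hβ))]
      exact Finset.notMem_empty _
    rw [this]; exact Set.countable_empty
  | succ N ih =>
    intro B E hB hE
    by_cases hc : ∀ α, {β ∈ B | α ∈ E β}.Countable
    · exact delta_disj B hB E lab hc
    · push Not at hc
      obtain ⟨α0, h0⟩ := hc
      obtain ⟨m, hm⟩ := pigeon _ h0 (fun β => lab β α0)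
      set B' := {β ∈ {β ∈ B | α0 ∈ E β} | lab β α0 = m} \ {α0} with hB'
      have hB'c : ¬ B'.Countable := by
        intro h
        apply hm
        refine (h.union (Set.countable_singleton α0)).mono ?_
        intro β hβ
        by_cases hb : β = α0
        · exact Or.inr hb
        · exact Or.inl ⟨hβ, hb⟩
      obtain ⟨T, w, h1, h2, h3⟩ := ih B' (fun β => (E β).erase α0) hB'c (by
        intro β hβ
        have := hE β hβ.1.1.1
        rw [Finset.card_erase_of_mem hβ.1.1.2]
        omega)
      refine ⟨T, Function.update w α0 m, fun β hβ => (h1 hβ).1.1.1, h2, fun β hβ α hα hne => ?_⟩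
      by_cases ha : α = α0
      · subst ha
        refine ⟨fun h => (h1 h).2 rfl, ?_⟩
        rw [Function.update_self]
        exact (h1 hβ).1.2.symm
      · rw [Function.update_of_ne ha]
        exact h3 β hβ α (Finset.mem_erase.mpr ⟨ha, hα⟩) hne

theorem delta {ι : Type u} {Λ : Type v} [Nonempty Λ] [Countable Λ] (lab : ι → ι → Λ)
    (B : Set ι) (E : ι → Finset ι) (hB : ¬ B.Countable) :
    ∃ (T : Set ι) (w : ι → Λ), T ⊆ B ∧ ¬ T.Countable ∧
      ∀ β ∈ T, ∀ α ∈ E β, α ≠ β → α ∉ T ∧ w α = lab β α := by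
  obtain ⟨N, hN⟩ := pigeon B hB (fun β => (E β).card)
  obtain ⟨T, w, h1, h2, h3⟩ := delta_card lab N _ E hN (fun β hβ => hβ.2.le)
  exact ⟨T, w, fun β hβ => (h1 hβ).1, h2, h3⟩

theorem box {T : Type v} (V : Set (T → Bool)) (t0 : T → Bool) (hV : V ∈ 𝓝 t0) :
    ∃ A : Finset T, ∀ t : T → Bool, (∀ α ∈ A, t α = t0 α) → t ∈ V := by
  rw [nhds_pi] at hV
  obtain ⟨A, s, hs, hsub⟩ := Filter.mem_pi'.mp hV
  refine ⟨A, fun t ht => hsub fun α hα => ?_⟩
  rw [ht α hα]
  exact mem_of_mem_nhds (hs α)

variable {X : Type u} [TopologicalSpace X] [T2Space X]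

/-- A map on a Cantor cube that depends on uncountably many coordinates is injective on an
uncountable subcube. -/
theorem emb_of_dep {T : Type v} [DecidableEq T] (r : (T → Bool) → X) (hr : Continuous r)
    (hd : ¬ {β | ∃ t, r (Function.update t β false) ≠ r (Function.update t β true)}.Countable) :
    ∃ (T' : Set T) (h : (T' → Bool) → X), ¬ T'.Countable ∧ IsEmbedding h := by
  classical
  have h1 : ∀ β : T, ∃ (t : T → Bool) (U U' : Set X) (A : Finset T),
      (∃ t, r (Function.update t β false) ≠ r (Function.update t β true)) →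
      Disjoint U U' ∧ ∀ s : T → Bool, (∀ α ∈ A, s α = t α) →
        r (Function.update s β false) ∈ U ∧ r (Function.update s β true) ∈ U' := by
    intro β
    by_cases hβ : ∃ t, r (Function.update t β false) ≠ r (Function.update t β true)
    · obtain ⟨t, ht⟩ := hβ
      obtain ⟨U, U', hU, hU', h1, h2, h3⟩ := t2_separation ht
      have hu : ∀ b : Bool, Continuous fun s : T → Bool => r (Function.update s β b) :=
        fun b => hr.comp (continuous_id.update β continuous_const)
      obtain ⟨A, hA⟩ := box ((fun s => r (Function.update s β false)) ⁻¹' U ∩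
        (fun s => r (Function.update s β true)) ⁻¹' U') t
        (((hU.preimage (hu false)).inter (hU'.preimage (hu true))).mem_nhds ⟨h1, h2⟩)
      exact ⟨t, U, U', A, fun _ => ⟨h3, fun s hs => hA s hs⟩⟩
    · exact ⟨fun _ => false, ∅, ∅, ∅, fun h => absurd h hβ⟩
  choose t U U' A hA using h1
  obtain ⟨T', w, h1, h2, h3⟩ := delta t _ A hd
  let y : (T' → Bool) → (T → Bool) := fun s α => if h : α ∈ T' then s ⟨α, h⟩ else w α
  have hy : Continuous y := by
    refine continuous_pi fun α => ?_
    by_cases h : α ∈ T'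
    · simp only [y, dif_pos h]; exact continuous_apply _
    · simp only [y, dif_neg h]; exact continuous_const
  have hmem : ∀ (s : T' → Bool) (β : T'), (s β = false → r (y s) ∈ U β) ∧
      (s β = true → r (y s) ∈ U' β) := by
    intro s β
    have h4 := (hA β (h1 β.2)).2 (Function.update (y s) β (t β β)) (by
      intro α hα
      by_cases hab : α = β
      · rw [hab, Function.update_self]
      · rw [Function.update_of_ne hab]
        obtain ⟨h5, h6⟩ := h3 β β.2 α hα hab
        simp only [y, dif_neg h5]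
        exact h6)
    simp only [Function.update_idem] at h4
    have h5 : y s β = s β := by simp only [y, dif_pos β.2]
    constructor
    · intro hs
      have : Function.update (y s) β false = y s := by
        rw [Function.update_eq_self_iff, h5, hs]
      rw [← this]; exact h4.1
    · intro hs
      have : Function.update (y s) β true = y s := by
        rw [Function.update_eq_self_iff, h5, hs]
      rw [← this]; exact h4.2
  refine ⟨T', fun s => r (y s), h2, ((hr.comp hy).isClosedEmbedding ?_).isEmbedding⟩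
  intro s s' hss
  funext β
  have hdis := (hA β (h1 β.2)).1
  simp only [Function.comp] at hss
  by_contra hne
  cases hs : s β <;> cases hs' : s' β
  · exact hne (hs.trans hs'.symm)
  · exact Set.disjoint_left.mp hdis ((hmem s β).1 hs) (hss ▸ (hmem s' β).2 hs')
  · exact Set.disjoint_left.mp hdis ((hmem s' β).1 hs') (hss ▸ (hmem s β).2 hs)
  · exact hne (hs.trans hs'.symm)

/-- Greedy sequences of pairs. -/
def Good {T : Type v} {N : ℕ} (f : T → X → ℝ) (d : T → Fin N → (T → Bool) → X) (δ : ℝ)
    (t : T → Bool) (m : ℕ) (p : ℕ → T × T) : Prop :=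
  ∀ i < m, t (p i).1 = false ∧ t (p i).2 = true ∧ ∀ j < i, ∀ l,
    |f (p i).1 (d (p j).2 l t) - f (p i).2 (d (p j).2 l t)| < δ

omit [TopologicalSpace X] [T2Space X] in
theorem good_bound {T : Type v} {N : ℕ} (f : T → X → ℝ) (hf : ∀ β x, 0 ≤ f β x ∧ f β x ≤ 1)
    (d : T → Fin N → (T → Bool) → X) (δ : ℝ) (hδ : 0 < δ)
    (hx : ∀ t β γ, t β = false → t γ = true →
      ∃ l l', d β l t = d γ l' t ∧ 2 * δ ≤ |f β (d β l t) - f γ (d β l t)|) :
    ∃ h : ℕ, ∀ t m p, Good f d δ t m p → m ≤ h := by
  classical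
  obtain ⟨η, hη⟩ : ∃ η, η = δ / 2 := ⟨_, rfl⟩
  have hη0 : 0 < η := by rw [hη]; positivity
  set K : Finset ℤ := Finset.Icc 0 ⌊1 / η⌋ with hK
  obtain ⟨h, hh⟩ := skew.{u} N (N * K.card)
  refine ⟨h, fun t m p hG => ?_⟩
  have := hh (X × ULift.{u} ℤ) (Finset.range m)
    (fun j => (((Finset.univ.image fun l => d (p j).1 l t) ×ˢ (K.image ULift.up)).filter
      fun q => (∃ i < j, ∃ l, q.1 = d (p i).2 l t) ∧ 2 * δ - η ≤ |f (p j).1 q.1 - q.2.down * η|))
    (fun j => Finset.univ.image fun l => (d (p j).2 l t, ULift.up ⌊f (p j).2 (d (p j).2 l t) / η⌋))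
    ?_ ?_ ?_ ?_
  · simpa using this
  · intro j _
    refine (Finset.card_filter_le _ _).trans ?_
    rw [Finset.card_product]
    exact Nat.mul_le_mul (Finset.card_image_le.trans (by simp)) Finset.card_image_le
  · intro j _
    exact Finset.card_image_le.trans (by simp)
  · intro j hj
    rw [Finset.disjoint_left]
    intro q hq hq'
    obtain ⟨-, ⟨i, hi, l, hl⟩, h2⟩ := Finset.mem_filter.mp hq
    obtain ⟨l', -, rfl⟩ := Finset.mem_image.mp hq'
    simp only at hl h2
    have h3 := (hG j (Finset.mem_range.mp hj)).2.2 i hi l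
    rw [← hl] at h3
    set a := f (p j).1 (d (p j).2 l' t)
    set b := f (p j).2 (d (p j).2 l' t)
    have h4 : (⌊b / η⌋ : ℝ) * η ≤ b := by
      have := Int.floor_le (b / η)
      rwa [le_div_iff₀ hη0] at this
    have h5 : b < (⌊b / η⌋ + 1) * η := by
      have := Int.lt_floor_add_one (b / η)
      rwa [div_lt_iff₀ hη0] at this
    rw [abs_lt] at h3
    rw [le_abs] at h2
    rcases h2 with h2 | h2 <;> nlinarith
  · intro i hi j hj hij
    rw [Finset.not_disjoint_iff]
    obtain ⟨l, l', h1, h2⟩ := hx t (p j).1 (p i).2 (hG j (Finset.mem_range.mp hj)).1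
      (hG i (Finset.mem_range.mp hi)).2.1
    refine ⟨(d (p i).2 l' t, ULift.up ⌊f (p i).2 (d (p i).2 l' t) / η⌋), ?_,
      Finset.mem_image.mpr ⟨l', Finset.mem_univ _, rfl⟩⟩
    rw [h1] at h2
    set a := f (p j).1 (d (p i).2 l' t)
    have hb := hf (p i).2 (d (p i).2 l' t)
    set b := f (p i).2 (d (p i).2 l' t)
    have h4 : (⌊b / η⌋ : ℝ) * η ≤ b := by
      have := Int.floor_le (b / η)
      rwa [le_div_iff₀ hη0] at this
    have h5 : b < (⌊b / η⌋ + 1) * η := by
      have := Int.lt_floor_add_one (b / η)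
      rwa [div_lt_iff₀ hη0] at this
    refine Finset.mem_filter.mpr ⟨Finset.mem_product.mpr ⟨?_, ?_⟩, ⟨i, hij, l', rfl⟩, ?_⟩
    · exact Finset.mem_image.mpr ⟨l, Finset.mem_univ _, h1⟩
    · refine Finset.mem_image.mpr ⟨_, Finset.mem_Icc.mpr ⟨?_, ?_⟩, rfl⟩
      · exact Int.floor_nonneg.mpr (div_nonneg hb.1 hη0.le)
      · exact Int.floor_mono (div_le_div_of_nonneg_right hb.2 hη0.le)
    · show 2 * δ - η ≤ |a - (⌊b / η⌋ : ℝ) * η|
      rw [le_abs] at h2 ⊢
      rcases h2 with h2 | h2
      · left; nlinarith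
      · right; nlinarith

theorem emb_of_cross {T : Type v} [Uncountable T] {N : ℕ} (f : T → X → ℝ)
    (hfc : ∀ β, Continuous (f β)) (hf : ∀ β x, 0 ≤ f β x ∧ f β x ≤ 1)
    (d : T → Fin N → (T → Bool) → X) (hd : ∀ β l, Continuous (d β l)) (δ : ℝ) (hδ : 0 < δ)
    (hx : ∀ t β γ, t β = false → t γ = true →
      ∃ l l', d β l t = d γ l' t ∧ 2 * δ ≤ |f β (d β l t) - f γ (d β l t)|) :
    ∃ (T' : Set T) (h : (T' → Bool) → X), ¬ T'.Countable ∧ IsEmbedding h := by
  classical
  obtain ⟨h, hh⟩ := good_bound f hf d δ hδ hx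
  have hex : ∃ m, ¬ ∃ t p, Good f d δ t m p := ⟨h + 1, by
    rintro ⟨t, p, hG⟩
    have := hh t _ p hG
    omega⟩
  have hne : Nat.find hex ≠ 0 := by
    intro h0
    have := Nat.find_spec hex
    rw [h0] at this
    obtain ⟨β⟩ : Nonempty T := inferInstance
    exact this ⟨fun _ => false, fun _ => (β, β), fun i hi => absurd hi (Nat.not_lt_zero i)⟩
  obtain ⟨m, hm⟩ := Nat.exists_eq_succ_of_ne_zero hne
  have hmax : ¬ ∃ t p, Good f d δ t (m + 1) p := by
    have := Nat.find_spec hex
    rwa [hm] at this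
  have hm' : ∃ t p, Good f d δ t m p := by
    have := Nat.find_min hex (m := m) (by omega)
    exact not_not.mp this
  obtain ⟨t0, p, hG⟩ := hm'
  have hev : ∀ᶠ t in 𝓝 t0, Good f d δ t m p := by
    have : ∀ᶠ t in 𝓝 t0, ∀ i ∈ Finset.range m, t (p i).1 = false ∧ t (p i).2 = true ∧
        ∀ j ∈ Finset.range i, ∀ l,
          |f (p i).1 (d (p j).2 l t) - f (p i).2 (d (p j).2 l t)| < δ := by
      rw [Filter.eventually_all_finset]
      intro i hi
      obtain ⟨a1, a2, a3⟩ := hG i (Finset.mem_range.mp hi)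
      have hb : ∀ α : T, ∀ᶠ t : T → Bool in 𝓝 t0, t α = t0 α := fun α =>
        ((continuous_apply α).continuousAt (x := t0)).eventually
          ((isOpen_discrete {t0 α}).mem_nhds rfl)
      refine ((hb _).mono fun t ht => ht.trans a1).and
        (((hb _).mono fun t ht => ht.trans a2).and ?_)
      rw [Filter.eventually_all_finset]
      intro j hj
      rw [Filter.eventually_all]
      intro l
      exact (((hfc _).comp (hd _ l)).sub ((hfc _).comp (hd _ l))).abs.continuousAt.eventually_lt
        continuousAt_const (a3 j (Finset.mem_range.mp hj) l)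
    filter_upwards [this] with t ht i hi
    obtain ⟨a1, a2, a3⟩ := ht i (Finset.mem_range.mpr hi)
    exact ⟨a1, a2, fun j hj => a3 j (Finset.mem_range.mpr hj)⟩
  obtain ⟨A, hA⟩ := box _ t0 hev
  have hwit : ∀ t : T → Bool, (∀ α ∈ A, t α = t0 α) → ∀ β γ, t β = false → t γ = true →
      ∃ j < m, ∃ l, δ ≤ |f β (d (p j).2 l t) - f γ (d (p j).2 l t)| := by
    intro t ht β γ hβ hγ
    by_contra hcon
    push Not at hcon
    refine hmax ⟨t, Function.update p m (β, γ), fun i hi => ?_⟩
    have hup : ∀ j < m, Function.update p m (β, γ) j = p j := fun j hj =>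
      Function.update_of_ne hj.ne _ _
    by_cases him : i = m
    · subst him
      rw [Function.update_self]
      refine ⟨hβ, hγ, fun j hj l => ?_⟩
      rw [hup j hj]
      exact hcon j hj l
    · have hi' : i < m := by omega
      obtain ⟨a1, a2, a3⟩ := hA t ht i hi'
      rw [hup i hi']
      refine ⟨a1, a2, fun j hj l => ?_⟩
      rw [hup j (hj.trans hi')]
      exact a3 j hj l
  let ρ : (T → Bool) → (T → Bool) := fun t α => if α ∈ A then t0 α else t α
  have hρ : Continuous ρ := by
    refine continuous_pi fun α => ?_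
    by_cases h : α ∈ A
    · simp only [ρ, if_pos h]; exact continuous_const
    · simp only [ρ, if_neg h]; exact continuous_apply _
  let r : Fin m × Fin N → (T → Bool) → X := fun q t => d (p q.1).2 q.2 (ρ t)
  by_cases hc : ∃ q, ¬ {β | ∃ t, r q (Function.update t β false) ≠
      r q (Function.update t β true)}.Countable
  · obtain ⟨q, hq⟩ := hc
    exact emb_of_dep (r q) ((hd _ _).comp hρ) hq
  · exfalso
    push Not at hc
    set C : Set T := (A : Set T) ∪ ⋃ q, {β | ∃ t, r q (Function.update t β false) ≠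
      r q (Function.update t β true)} with hC
    have hCc : C.Countable := A.countable_toSet.union (Set.countable_iUnion hc)
    have hCn : ¬ (Cᶜ).Countable := by
      intro h'
      have := hCc.union h'
      rw [Set.union_compl_self] at this
      exact Set.not_countable_univ this
    have hind : ∀ β ∉ C, ∀ q t b, r q (Function.update t β b) = r q t := by
      intro β hβ q t b
      have h1 : r q (Function.update t β false) = r q (Function.update t β true) := by
        by_contra hn
        exact hβ (Or.inr (Set.mem_iUnion.mpr ⟨q, t, hn⟩))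
      have h2 : Function.update t β (t β) = t := Function.update_eq_self β t
      cases b <;> cases hb : t β <;> rw [hb] at h2
      · rw [h2]
      · rw [h1, h2]
      · rw [← h1, h2]
      · rw [h2]
    obtain ⟨a, ha⟩ := pigeon Cᶜ hCn (fun β => fun q : Fin m × Fin N => ⌊f β (r q t0) / δ⌋)
    have hnt : ¬ {β ∈ Cᶜ | (fun q : Fin m × Fin N => ⌊f β (r q t0) / δ⌋) = a}.Subsingleton :=
      fun h' => ha h'.finite.countable
    rw [Set.not_subsingleton_iff] at hnt
    obtain ⟨β, hβ, γ, hγ, hbg⟩ := hnt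
    set t : T → Bool := Function.update (Function.update t0 β false) γ true with ht
    have htA : ∀ α ∈ A, t α = t0 α := by
      intro α hα
      have h1 : α ≠ γ := fun h' => hγ.1 (Or.inl (h' ▸ hα))
      have h2 : α ≠ β := fun h' => hβ.1 (Or.inl (h' ▸ hα))
      rw [ht, Function.update_of_ne h1, Function.update_of_ne h2]
    have hρt : ρ t = t := by
      funext α
      by_cases h' : α ∈ A
      · simp only [ρ, if_pos h']; exact (htA α h').symm
      · simp only [ρ, if_neg h']
    obtain ⟨j, hj, l, hl⟩ := hwit t htA β γ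
      (by rw [ht, Function.update_of_ne hbg, Function.update_self])
      (by rw [ht, Function.update_self])
    have h1 : d (p j).2 l t = r (⟨j, hj⟩, l) t0 := by
      have : r (⟨j, hj⟩, l) t = d (p j).2 l t := by simp only [r, hρt]
      rw [← this, ht, hind γ hγ.1, hind β hβ.1]
    rw [h1] at hl
    have h2 : ⌊f β (r (⟨j, hj⟩, l) t0) / δ⌋ = ⌊f γ (r (⟨j, hj⟩, l) t0) / δ⌋ :=
      (congrFun hβ.2 _).trans (congrFun hγ.2 _).symm
    have h3 := Int.abs_sub_lt_one_of_floor_eq_floor h2
    rw [← sub_div, abs_div, abs_of_pos hδ, div_lt_one hδ] at h3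
    linarith

end Pool.Agent.H421Z.TExt
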