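import Pool.Agent.H421Z.TEmb.Defs

set_option autoImplicit false

namespace Pool.Agent.H421Z.TExt

open Pool.Agent.H421Z.TEmb

universe u

/-- `X` is t-extral: whenever `X` is (embedded as) a closed subspace of a Tychonoff space `Z`,
there is a continuous extender `C_p(X) → C_p(Z)`. -/
def TExtral (X : Type u) [TopologicalSpace X] : Prop :=
  ∀ (Z : Type u) [TopologicalSpace Z] [T35Space Z] (e : X → Z), Topology.IsClosedEmbedding e →
    ∃ φ : Cp X → Cp Z, Continuous φ ∧ ∀ (f : Cp X) (x : X), (φ f).1 (e x) = f.1 x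

/-- `X` is t-extendial: every closed subspace of `X` is t-embedded in `X`. -/
def TExtendial (X : Type u) [TopologicalSpace X] : Prop :=
  ∀ Y : Set X, IsClosed Y → TEmbedded Y

/-- `X` has countable tightness. -/
def CountablyTight (X : Type u) [TopologicalSpace X] : Prop :=
  ∀ (A : Set X) (x : X), x ∈ closure A → ∃ B : Set X, B ⊆ A ∧ B.Countable ∧ x ∈ closure B

end Pool.Agent.H421Z.TExt
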