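import Pool.Agent.H421Z.TExt.Local
import Pool.Agent.Helper206.BoxS.IoD

set_option autoImplicit false

namespace Pool.Agent.H421Z.TExt

open Filter Topology Set Metric Pool.Agent.H421Z.TEmb

/-- If `C_p(E)` is homeomorphic to a retract of `C_p(F)` then `dim E ≤ dim F`. -/
theorem finrank_le_of_retract {E F : Type} [NormedAddCommGroup E] [InnerProductSpace ℝ E]
    [FiniteDimensional ℝ E] [NormedAddCommGroup F] [InnerProductSpace ℝ F] [FiniteDimensional ℝ F]
    (h : Cp E → Cp F) (k : Cp F → Cp E) (hh : Continuous h) (hk : Continuous k)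
    (hkh : ∀ f, k (h f) = f) : Module.finrank ℝ E ≤ Module.finrank ℝ F := by
  classical
  by_contra hlt
  rw [not_le] at hlt
  obtain ⟨ι, hι⟩ := finrank_le_iff_exists_linearMap.mp hlt.le
  have : CompactSpace (closedBall (0 : E) 1) :=
    isCompact_iff_compactSpace.mp (isCompact_closedBall 0 1)
  obtain ⟨G, c, d, a1, a2, a3, a4, -, a6⟩ := local_emb (P := closedBall (0 : E) 1) h k hh hk hkh
    Subtype.val continuous_subtype_val (Subtype.val ⁻¹' ball 0 1)
    (isOpen_ball.preimage continuous_subtype_val) ⟨⟨0, by simp⟩, by simp⟩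
  obtain ⟨W, hW, rfl⟩ := isOpen_induced_iff.mp a1
  obtain ⟨p0, hp0⟩ := a2
  obtain ⟨r, hr, hsub⟩ := nhds_basis_closedBall.mem_iff.mp
    ((isOpen_ball.inter hW).mem_nhds ⟨a3 hp0, hp0⟩)
  have hin : ∀ x ∈ closedBall p0.1 r, x ∈ closedBall (0 : E) 1 :=
    fun x hx => ball_subset_closedBall (hsub hx).1
  let Φ : E → E := fun x => if hx : x ∈ closedBall (0 : E) 1 then ι (c ⟨x, hx⟩) else 0
  have hΦ : ∀ x (hx : x ∈ closedBall p0.1 r), Φ x = ι (c ⟨x, hin x hx⟩) :=
    fun x hx => dif_pos (hin x hx)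
  have h1 := Pool.Agent.Helper206.BoxS.IoD.image_mem_nhds Φ p0.1 r hr (by
    rw [continuousOn_iff_continuous_domRestrict]
    have e1 : Continuous fun x : closedBall p0.1 r => ι (c ⟨x.1, hin x.1 x.2⟩) :=
      ι.continuous_of_finiteDimensional.comp (a4.comp_continuous
        (continuous_subtype_val.subtype_mk _) fun x => (hsub x.2).2)
    exact e1.congr fun x => (hΦ x.1 x.2).symm) (by
    intro x hx y hy hxy
    rw [hΦ x hx, hΦ y hy] at hxy
    have e1 := congrArg d (hι hxy)
    rw [a6 _ (hsub hx).2, a6 _ (hsub hy).2] at e1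
    exact e1)
  have h2 : (LinearMap.range ι : Set E) ∈ 𝓝 (Φ p0.1) := by
    refine mem_of_superset h1 ?_
    rintro _ ⟨x, hx, rfl⟩
    rw [hΦ x hx]
    exact ⟨_, rfl⟩
  have h3 : LinearMap.range ι = ⊤ :=
    Submodule.eq_top_of_nonempty_interior' _ ⟨_, mem_interior_iff_mem_nhds.mpr h2⟩
  have h4 := LinearMap.finrank_range_le ι
  rw [h3, finrank_top] at h4
  omega

/-- For a finite space, `C_p` is a Euclidean space. -/
noncomputable def cpFin {X : Type*} [TopologicalSpace X] [DiscreteTopology X] {n : ℕ}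
    (e : X ≃ Fin n) : Cp X ≃ₜ EuclideanSpace ℝ (Fin n) where
  toFun f := WithLp.toLp 2 fun i => f.1 (e.symm i)
  invFun v := ⟨fun x => v (e x), continuous_of_discreteTopology⟩
  left_inv f := by ext x; simp
  right_inv v := by ext i; simp
  continuous_toFun := by
    refine (PiLp.continuous_toLp 2 _).comp (continuous_pi fun i => ?_)
    exact (continuous_apply _).comp continuous_subtype_val
  continuous_invFun := by
    refine Continuous.subtype_mk (continuous_pi fun x => ?_) _
    fun_prop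

end Pool.Agent.H421Z.TExt
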