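import Pool.Agent.H421Z.TExt.Comb

set_option autoImplicit false

namespace Pool.Agent.H421Z.TExt

open Filter Topology Pool.Agent.H421Z.TEmb

universe u

theorem dep_lemma {ι : Type u} [DecidableEq ι] {M : Type} [TopologicalSpace M]
    (h : (ι → M) → ℝ) (hh : Continuous h) (C : Set ι)
    (hC : ∀ β ∉ C, ∀ y s, h (Function.update y β s) = h y) (y y' : ι → M)
    (hy : ∀ α ∈ C, y α = y' α) : h y = h y' := by
  have h1 : ∀ A : Finset ι, h (fun α => if α ∈ A then y' α else y α) = h y := by
    intro A
    induction A using Finset.induction_on with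
    | empty => simp
    | insert a A ha ih =>
      have e : (fun α => if α ∈ insert a A then y' α else y α) =
          Function.update (fun α => if α ∈ A then y' α else y α) a (y' a) := by
        funext α
        by_cases hα : α = a
        · subst hα; simp
        · simp [hα]
      rw [e]
      by_cases hc : a ∈ C
      · have : Function.update (fun α => if α ∈ A then y' α else y α) a (y' a) =
            fun α => if α ∈ A then y' α else y α := by
          rw [Function.update_eq_self_iff]
          simp [ha, hy a hc]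
        rw [this, ih]
      · rw [hC a hc, ih]
  have h2 : Tendsto (fun A : Finset ι => fun α => if α ∈ A then y' α else y α) atTop (𝓝 y') := by
    rw [tendsto_pi_nhds]
    intro α
    refine tendsto_const_nhds.congr' ?_
    filter_upwards [eventually_ge_atTop ({α} : Finset ι)] with A hA
    rw [if_pos (hA (Finset.mem_singleton_self α))]
  have h3 := (hh.tendsto y').comp h2
  have h4 : (h ∘ fun A : Finset ι => fun α => if α ∈ A then y' α else y α) = fun _ => h y :=
    funext h1
  rw [h4] at h3
  exact tendsto_nhds_unique tendsto_const_nhds h3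

variable {X : Type u} [TopologicalSpace X] [CompactSpace X] [T2Space X]
variable {ι : Type u} [DecidableEq ι] {M : Type} [TopologicalSpace M] [CompactSpace M] [T2Space M]
  [SecondCountableTopology M]

theorem dep_unc (j : X → ι → M) (hj : Continuous j) (Φ : (ι → M) → Cp X → ℝ)
    (h1 : ∀ g, Continuous fun y => Φ y g) (hext : ∀ f x, Φ (j x) f = f.1 x)
    (hm : ¬ TopologicalSpace.MetrizableSpace X) :
    ¬ {β | ∃ f : Cp X, (∀ x, 0 ≤ f.1 x ∧ f.1 x ≤ 1) ∧ ∃ y s s',
      Φ (Function.update y β s) f < Φ (Function.update y β s') f}.Countable := by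
  intro hc
  set C := {β | ∃ f : Cp X, (∀ x, 0 ≤ f.1 x ∧ f.1 x ≤ 1) ∧ ∃ y s s',
      Φ (Function.update y β s) f < Φ (Function.update y β s') f} with hC
  have : Countable C := hc.to_subtype
  let k : X → (C → M) := fun x α => j x α
  have hk : Continuous k := continuous_pi fun α => (continuous_apply α.1).comp hj
  have hinj : Function.Injective k := by
    intro x x' hxx
    by_contra hne
    obtain ⟨f, hf0, hf1, hf⟩ := exists_continuous_zero_one_of_isClosed
      (isClosed_singleton (x := x)) (isClosed_singleton (x := x')) (Set.disjoint_singleton.mpr hne)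
    let F : Cp X := ⟨f, f.continuous⟩
    have h2 : Φ (j x) F = Φ (j x') F := by
      refine dep_lemma (fun y => Φ y F) (h1 F) C ?_ _ _ fun α hα => congrFun hxx ⟨α, hα⟩
      intro β hβ y s
      by_contra hn
      apply hβ
      refine ⟨F, fun z => hf z, y, ?_⟩
      rcases lt_or_gt_of_ne hn with h | h
      · exact ⟨s, y β, by rwa [Function.update_eq_self]⟩
      · exact ⟨y β, s, by rwa [Function.update_eq_self]⟩
    rw [hext, hext] at h2
    have a0 : F.1 x = 0 := hf0 (Set.mem_singleton x)
    have a1 : F.1 x' = 1 := hf1 (Set.mem_singleton x')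
    rw [a0, a1] at h2
    exact zero_ne_one h2
  have hemb := (hk.isClosedEmbedding hinj).isEmbedding
  have := hemb.secondCountableTopology
  exact hm inferInstance

theorem local_data (x0 : X) (Φ : (ι → M) → Cp X → ℝ) (h1 : ∀ g, Continuous fun y => Φ y g)
    (h2 : ∀ y, Continuous (Φ y)) (q : ℕ → M) (hq : DenseRange q) (β : ι) (f : Cp X) (y : ι → M)
    (s s' : M) (hlt : Φ (Function.update y β s) f < Φ (Function.update y β s') f) :
    ∃ (a b : ℚ) (N : ℕ) (G : Set (ι → M)) (c c' : ℕ → (ι → M) → X) (E : Finset ι) (lab : ι → ℕ),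
      a < b ∧ (∀ l, ContinuousOn (c l) G) ∧ (∀ l, ContinuousOn (c' l) G) ∧
      (∀ x : ι → M, (∀ α ∈ E, x α = q (lab α)) → x ∈ G) ∧
      (∀ x ∈ G, ∀ g : Cp X, (∀ l < N, |g.1 (c l x) - f.1 (c l x)| < 1 / ((N : ℝ) + 1)) →
        Φ (Function.update x β s) g ≤ a) ∧
      (∀ x ∈ G, ∀ g : Cp X, (∀ l < N, |g.1 (c' l x) - f.1 (c' l x)| < 1 / ((N : ℝ) + 1)) →
        b ≤ Φ (Function.update x β s') g) := by
  classical
  obtain ⟨a, ha1, ha2⟩ := exists_rat_btwn hlt
  obtain ⟨b, hb1, hb2⟩ := exists_rat_btwn ha2
  have hu : ∀ (m : M) (g : Cp X), Continuous fun x : ι → M => Φ (Function.update x β m) g :=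
    fun m g => (h1 g).comp (continuous_id.update β continuous_const)
  obtain ⟨N1, G1, c', a1, a2, a3, a4, a5⟩ := generic x0 (fun x g => Φ (Function.update x β s') g)
    (hu s') (fun x => h2 _) f b
    ({x | Φ (Function.update x β s) f < a} ∩ {x | (b : ℝ) < Φ (Function.update x β s') f})
    ((isOpen_lt (hu s f) continuous_const).inter (isOpen_lt continuous_const (hu s' f)))
    ⟨y, ha1, hb2⟩ (fun x hx => hx.2)
  obtain ⟨N0, G, c, b1, b2, b3, b4, b5⟩ := generic x0 (fun x g => -Φ (Function.update x β s) g)
    (fun g => (hu s g).neg) (fun x => (h2 _).neg) f (-a) G1 a1 a2 (fun x hx => by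
      have : Φ (Function.update x β s) f < a := (a3 hx).1
      linarith)
  obtain ⟨z, hz⟩ := b2
  have hnb := b1.mem_nhds hz
  rw [nhds_pi] at hnb
  obtain ⟨E, t, ht, hsub⟩ := Filter.mem_pi'.mp hnb
  have hl : ∀ α, ∃ n, q n ∈ t α := fun α => by
    obtain ⟨n, hn⟩ := hq.exists_mem_open isOpen_interior ⟨z α, mem_interior_iff_mem_nhds.mpr (ht α)⟩
    exact ⟨n, interior_subset hn⟩
  choose lab hlab using hl
  have hmono : ∀ {n : ℕ}, n ≤ max N0 N1 →
      1 / (((max N0 N1 : ℕ) : ℝ) + 1) ≤ 1 / ((n : ℝ) + 1) := by
    intro n hn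
    have : (n : ℝ) ≤ (max N0 N1 : ℕ) := by exact_mod_cast hn
    exact one_div_le_one_div_of_le (by positivity) (by linarith)
  refine ⟨a, b, max N0 N1, G, c, c', E, lab, by exact_mod_cast hb1, b4, fun l => (a4 l).mono b3,
    fun x hx => hsub fun α hα => ?_, fun x hx g hg => ?_, fun x hx g hg => ?_⟩
  · rw [hx α hα]; exact hlab α
  · have := b5 x hx g fun l hl =>
      (hg l (hl.trans_le (le_max_left _ _))).trans_le (hmono (le_max_left _ _))
    linarith
  · exact a5 x (b3 hx) g fun l hl =>
      (hg l (hl.trans_le (le_max_right _ _))).trans_le (hmono (le_max_right _ _))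

omit [DecidableEq ι] in
theorem main (j : X → ι → M) (hj : Continuous j) (Φ : (ι → M) → Cp X → ℝ)
    (h1 : ∀ g, Continuous fun y => Φ y g) (h2 : ∀ y, Continuous (Φ y))
    (hext : ∀ f x, Φ (j x) f = f.1 x) (hm : ¬ TopologicalSpace.MetrizableSpace X) :
    ∃ (T : Type u) (_ : Uncountable T) (h : (T → Bool) → X), IsEmbedding h := by
  classical
  have hX : Nonempty X := by
    by_contra hn
    rw [not_nonempty_iff] at hn
    exact hm inferInstance
  obtain ⟨x0⟩ := hX
  have hB := dep_unc j hj Φ h1 hext hm
  set B := {β | ∃ f : Cp X, (∀ x, 0 ≤ f.1 x ∧ f.1 x ≤ 1) ∧ ∃ y s s',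
      Φ (Function.update y β s) f < Φ (Function.update y β s') f} with hBdef
  have hM : Nonempty M := by
    by_contra hn
    apply hB
    have : B = ∅ := by
      ext β
      simp only [Set.mem_empty_iff_false, iff_false]
      rintro ⟨f, -, y, s, -⟩
      exact hn ⟨s⟩
    rw [this]; exact Set.countable_empty
  have hq := TopologicalSpace.denseRange_denseSeq M
  set q := TopologicalSpace.denseSeq M
  have hall : ∀ β : ι, ∃ (f : Cp X) (s s' : M) (a b : ℚ) (N : ℕ) (G : Set (ι → M))
      (c c' : ℕ → (ι → M) → X) (E : Finset ι) (lab : ι → ℕ), β ∈ B →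
      (∀ x, 0 ≤ f.1 x ∧ f.1 x ≤ 1) ∧
      a < b ∧ (∀ l, ContinuousOn (c l) G) ∧ (∀ l, ContinuousOn (c' l) G) ∧
      (∀ x : ι → M, (∀ α ∈ E, x α = q (lab α)) → x ∈ G) ∧
      (∀ x ∈ G, ∀ g : Cp X, (∀ l < N, |g.1 (c l x) - f.1 (c l x)| < 1 / ((N : ℝ) + 1)) →
        Φ (Function.update x β s) g ≤ a) ∧
      (∀ x ∈ G, ∀ g : Cp X, (∀ l < N, |g.1 (c' l x) - f.1 (c' l x)| < 1 / ((N : ℝ) + 1)) →
        b ≤ Φ (Function.update x β s') g) := by
    intro β
    by_cases hβ : β ∈ B
    · obtain ⟨f, hf, y, s, s', hlt⟩ := hβ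
      obtain ⟨a, b, N, G, c, c', E, lab, hh⟩ := local_data x0 Φ h1 h2 q hq β f y s s' hlt
      exact ⟨f, s, s', a, b, N, G, c, c', E, lab, fun _ => ⟨hf, hh⟩⟩
    · exact ⟨⟨fun _ => 0, continuous_const⟩, q 0, q 0, 0, 0, 0, ∅, fun _ _ => x0, fun _ _ => x0, ∅,
        fun _ => 0, fun h => absurd h hβ⟩
  choose f s s' af bf Nf G c c' E lab hall using hall
  obtain ⟨⟨a, b, N⟩, hB'⟩ := pigeon B hB (fun β => (af β, bf β, Nf β))
  obtain ⟨T, w, hT1, hT2, hT3⟩ := delta lab _ E hB'
  have hTa : ∀ β : T, af β = a := fun β => congrArg Prod.fst (hT1 β.2).2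
  have hTb : ∀ β : T, bf β = b := fun β => congrArg (fun p => p.2.1) (hT1 β.2).2
  have hTN : ∀ β : T, Nf β = N := fun β => congrArg (fun p => p.2.2) (hT1 β.2).2
  have hTB : ∀ β : T, (β : ι) ∈ B := fun β => (hT1 β.2).1
  have hunc : Uncountable T := ⟨fun h => hT2 (Set.countable_coe_iff.mp h)⟩
  let y : (T → Bool) → ι → M := fun t α =>
    if h : α ∈ T then (if t ⟨α, h⟩ then s' α else s α) else q (w α)
  have hy : Continuous y := by
    refine continuous_pi fun α => ?_
    by_cases h : α ∈ T
    · simp only [y, dif_pos h]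
      exact (continuous_of_discreteTopology (f := fun b : Bool => if b then s' α else s α)).comp
        (continuous_apply _)
    · simp only [y, dif_neg h]; exact continuous_const
  let x : T → (T → Bool) → ι → M := fun β t => Function.update (y t) β (q (lab β β))
  have hx : ∀ β, Continuous (x β) := fun β => hy.update β continuous_const
  have hxG : ∀ (β : T) t, x β t ∈ G β := by
    intro β t
    apply (hall β (hTB β)).2.2.2.2.1
    intro α hα
    by_cases hab : α = β
    · simp only [x, hab, Function.update_self]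
    · obtain ⟨h5, h6⟩ := hT3 β β.2 α hα hab
      simp only [x, Function.update_of_ne hab, y, dif_neg h5, h6]
  let d : T → Fin N → (T → Bool) → X := fun β l t =>
    if t β then c' β l (x β t) else c β l (x β t)
  have hd : ∀ β l, Continuous (d β l) := by
    intro β l
    have e1 : Continuous fun t => c β l (x β t) :=
      ((hall β (hTB β)).2.2.1 l).comp_continuous (hx β) (hxG β)
    have e2 : Continuous fun t => c' β l (x β t) :=
      ((hall β (hTB β)).2.2.2.1 l).comp_continuous (hx β) (hxG β)
    have e3 : Continuous fun p : Bool × (T → Bool) =>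
        if p.1 then c' β l (x β p.2) else c β l (x β p.2) := by
      refine continuous_prod_of_discrete_left.mpr fun b => ?_
      cases b
      · simpa using e1
      · simpa using e2
    have e4 : Continuous fun t : T → Bool => (t β, t) := (continuous_apply β).prodMk continuous_id
    exact e3.comp e4
  have hδ : (0 : ℝ) < 1 / ((N : ℝ) + 1) := by positivity
  obtain ⟨T', h, hT', hh⟩ := emb_of_cross (fun β : T => (f β).1) (fun β => (f β).2)
    (fun β => (hall β (hTB β)).1) d hd _ hδ (by
      intro t β γ hβ hγ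
      by_contra hcon
      push Not at hcon
      let v : X → ℝ := fun z => if ∃ l, d β l t = z then
        (if ∃ l, d γ l t = z then ((f β).1 z + (f γ).1 z) / 2 else (f β).1 z) else (f γ).1 z
      obtain ⟨g, hg⟩ := interp (Set.range (fun l => d β l t) ∪ Set.range (fun l => d γ l t))
        ((Set.finite_range _).union (Set.finite_range _)) v
      have k1 : ∀ l, |g.1 (d β l t) - (f β).1 (d β l t)| < 1 / ((N : ℝ) + 1) := by
        intro l
        rw [hg _ (Or.inl ⟨l, rfl⟩)]
        have e1 : ∃ l', d β l' t = d β l t := ⟨l, rfl⟩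
        simp only [v, if_pos e1]
        split_ifs with e2
        · obtain ⟨l', hl'⟩ := e2
          have := hcon l l' hl'.symm
          rw [abs_lt] at this ⊢
          constructor <;> linarith [this.1, this.2]
        · rw [sub_self, abs_zero]; exact hδ
      have k2 : ∀ l, |g.1 (d γ l t) - (f γ).1 (d γ l t)| < 1 / ((N : ℝ) + 1) := by
        intro l
        rw [hg _ (Or.inr ⟨l, rfl⟩)]
        have e1 : ∃ l', d γ l' t = d γ l t := ⟨l, rfl⟩
        simp only [v, if_pos e1]
        split_ifs with e2
        · obtain ⟨l', hl'⟩ := e2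
          have := hcon l' l hl'
          rw [hl'] at this
          rw [abs_lt] at this ⊢
          constructor <;> linarith [this.1, this.2]
        · rw [sub_self, abs_zero]; exact hδ
      have m1 := (hall β (hTB β)).2.2.2.2.2.1 (x β t) (hxG β t) g (by
        rw [hTN β]
        intro l hl
        have := k1 ⟨l, hl⟩
        simpa only [d, hβ, Bool.false_eq_true, if_false] using this)
      have m2 := (hall γ (hTB γ)).2.2.2.2.2.2 (x γ t) (hxG γ t) g (by
        rw [hTN γ]
        intro l hl
        have := k2 ⟨l, hl⟩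
        simpa only [d, hγ, if_true] using this)
      have u1 : Function.update (x β t) β (s β) = y t := by
        simp only [x, Function.update_idem]
        rw [Function.update_eq_self_iff]
        simp only [y, dif_pos β.2, Subtype.coe_eta, hβ, Bool.false_eq_true, if_false]
      have u2 : Function.update (x γ t) γ (s' γ) = y t := by
        simp only [x, Function.update_idem]
        rw [Function.update_eq_self_iff]
        simp only [y, dif_pos γ.2, Subtype.coe_eta, hγ, if_true]
      rw [u1, hTa β] at m1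
      rw [u2, hTb γ] at m2
      have hab : (a : ℝ) < b := by
        have := (hall β (hTB β)).2.1
        rw [hTa β, hTb β] at this
        exact_mod_cast this
      linarith)
  exact ⟨T', ⟨fun h => hT' (Set.countable_coe_iff.mp h)⟩, h, hh⟩

end Pool.Agent.H421Z.TExt
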