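import Pool.Agent.H421Z.TExt.Defs
import Pool.Agent.H421Z.TExt.Main

set_option autoImplicit false

namespace Pool.Agent.H421Z.TExt

open Filter Topology Pool.Agent.H421Z.TEmb

universe u

theorem tendsto_single (D : Type u) [DecidableEq D] :
    Tendsto (fun d : D => (fun d' => decide (d' = d) : D → Bool)) cofinite (𝓝 fun _ => false) := by
  rw [tendsto_pi_nhds]
  intro d'
  refine tendsto_const_nhds.congr' ?_
  filter_upwards [eventually_cofinite_ne d'] with d hd
  simp [Ne.symm hd]

theorem countable_ne_of_tendsto {D : Type u} (k : D → ℝ) (a : ℝ) (h : Tendsto k cofinite (𝓝 a)) :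
    {d | k d ≠ a}.Countable := by
  have : {d | k d ≠ a} = ⋃ n : ℕ, {d | ¬ dist (k d) a < 1 / ((n : ℝ) + 1)} := by
    ext d
    simp only [Set.mem_ofPred_eq, Set.mem_iUnion, not_lt]
    constructor
    · intro hd
      obtain ⟨n, hn⟩ := exists_nat_one_div_lt (dist_pos.mpr hd)
      exact ⟨n, hn.le⟩
    · rintro ⟨n, hn⟩ hd
      rw [hd, dist_self] at hn
      have : (0 : ℝ) < 1 / ((n : ℝ) + 1) := by positivity
      linarith
  rw [this]
  refine Set.countable_iUnion fun n => Set.Finite.countable ?_
  exact (Metric.tendsto_nhds.mp h) _ (by positivity)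

theorem compact_of_extral {X : Type u} [TopologicalSpace X] [T35Space X] (h : TExtral X) :
    CompactSpace X := by
  classical
  by_contra hnc
  have hemb : IsEmbedding (stoneCechUnit : X → StoneCech X) := isEmbedding_stoneCechUnit
  have hp : ∃ p : StoneCech X, p ∉ Set.range (stoneCechUnit : X → StoneCech X) := by
    by_contra hn
    push Not at hn
    apply hnc
    rw [← isCompact_univ_iff, hemb.isInducing.isCompact_iff, Set.image_univ,
      Set.eq_univ_of_forall hn]
    exact isCompact_univ
  obtain ⟨p, hp⟩ := hp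
  let D : Type u := Set (Cp X × X × ℕ)
  let Z : Set (StoneCech X × (D → Bool)) :=
    {z | z.2 = (fun _ => false) → z.1 ∈ Set.range (stoneCechUnit : X → StoneCech X)}
  let e : X → Z := fun x => ⟨(stoneCechUnit x, fun _ => false), fun _ => ⟨x, rfl⟩⟩
  have hec : Continuous e := (hemb.continuous.prodMk continuous_const).subtype_mk _
  have he : IsClosedEmbedding e := by
    refine ⟨IsEmbedding.of_comp hec (continuous_fst.comp continuous_subtype_val) hemb, ?_⟩
    have : Set.range e = (fun z : Z => z.1.2) ⁻¹' {fun _ => false} := by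
      ext z
      constructor
      · rintro ⟨x, rfl⟩; rfl
      · intro hz
        obtain ⟨x, hx⟩ := z.2 hz
        exact ⟨x, Subtype.ext (Prod.ext hx (Eq.symm hz))⟩
    rw [this]
    exact isClosed_singleton.preimage (continuous_snd.comp continuous_subtype_val)
  obtain ⟨φ, hφ, hext⟩ := h Z e he
  let pt : D → StoneCech X → Z := fun d y => ⟨(y, fun d' => decide (d' = d)), fun hz => by
    have := congrFun hz d
    simp at this⟩
  have hpt : ∀ d, Continuous (pt d) := fun d => (continuous_id.prodMk continuous_const).subtype_mk _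
  have hcount : ∀ (f : Cp X) (x : X), {d | (φ f).1 (pt d (stoneCechUnit x)) ≠ f.1 x}.Countable := by
    intro f x
    apply countable_ne_of_tendsto
    rw [← hext f x]
    refine ((φ f).2.tendsto _).comp ?_
    rw [tendsto_subtype_rng]
    exact tendsto_const_nhds.prodMk_nhds (tendsto_single D)
  have hd : ∃ d : D, ∀ (f : Cp X) (x : X), (φ f).1 (pt d (stoneCechUnit x)) = f.1 x := by
    by_contra hn
    push Not at hn
    choose F Y hFY using hn
    have hinj := fun (f : Cp X) (x : X) => Set.countable_iff_exists_injOn.mp (hcount f x)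
    choose n hn using hinj
    refine Function.cantor_injective (fun d : D => (F d, Y d, n (F d) (Y d) d)) ?_
    intro d d' hdd
    have a1 : F d = F d' := congrArg Prod.fst hdd
    have a2 : Y d = Y d' := congrArg (fun q => q.2.1) hdd
    have a3 : n (F d) (Y d) d = n (F d') (Y d') d' := congrArg (fun q => q.2.2) hdd
    rw [← a1, ← a2] at a3
    refine hn (F d) (Y d) (hFY d) ?_ a3
    rw [a1, a2]
    exact hFY d'
  obtain ⟨d, hd⟩ := hd
  have hψ : Continuous fun f : Cp X => -(φ f).1 (pt d p) :=
    ((continuous_apply _).comp (continuous_subtype_val.comp hφ)).neg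
  have hval : ∀ g : C(StoneCech X, ℝ), ∀ f : Cp X, (∀ x, f.1 x = g (stoneCechUnit x)) →
      (φ f).1 (pt d p) = g p := by
    intro g f hf
    have := Continuous.ext_on denseRange_stoneCechUnit ((φ f).2.comp (hpt d)) g.continuous (by
      rintro _ ⟨x, rfl⟩
      exact (hd f x).trans (hf x))
    exact congrFun this p
  have hX : Nonempty X := by
    by_contra hn
    rw [not_nonempty_iff] at hn
    exact hnc inferInstance
  obtain ⟨x0⟩ := hX
  obtain ⟨N, S, hS⟩ := sup_point x0 _ hψ ⟨fun _ => 0, continuous_const⟩ (-(1 / 2)) (by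
    rw [hval 0 _ (fun _ => rfl)]
    norm_num)
  obtain ⟨g, hg0, hg1, -⟩ := exists_continuous_zero_one_of_isClosed
    (Set.finite_range (fun l => (stoneCechUnit (S l) : StoneCech X))).isClosed
    (isClosed_singleton (x := p)) (by
      rw [Set.disjoint_singleton_right]
      rintro ⟨l, hl⟩
      exact hp ⟨S l, hl⟩)
  have h1 := hS ⟨fun x => g (stoneCechUnit x), g.continuous.comp hemb.continuous⟩ (by
    intro l _
    have : g (stoneCechUnit (S l)) = 0 := hg0 ⟨l, rfl⟩
    simp only [this, sub_self, abs_zero]
    positivity)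
  simp only at h1
  rw [hval g _ (fun _ => rfl), hg1 (Set.mem_singleton p)] at h1
  norm_num at h1

theorem cube_of_extral {X : Type u} [TopologicalSpace X] [T35Space X] (h : TExtral X) :
    ∃ (ι : Type u) (j : X → ι → unitInterval) (φ : Cp X → Cp (ι → unitInterval)),
      Continuous j ∧ Continuous φ ∧ ∀ (f : Cp X) (x : X), (φ f).1 (j x) = f.1 x := by
  have := compact_of_extral h
  let j : X → C(X, unitInterval) → unitInterval := fun x g => g x
  have hj : Continuous j := continuous_pi fun g => g.continuous
  have hinj : Function.Injective j := by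
    intro x x' hxx
    by_contra hne
    obtain ⟨f, hf0, hf1, hf⟩ := exists_continuous_zero_one_of_isClosed
      (isClosed_singleton (x := x)) (isClosed_singleton (x := x')) (Set.disjoint_singleton.mpr hne)
    have h2 := congrArg Subtype.val
      (congrFun hxx ⟨fun z => ⟨f z, hf z⟩, f.continuous.subtype_mk _⟩)
    have a0 : f x = 0 := hf0 (Set.mem_singleton x)
    have a1 : f x' = 1 := hf1 (Set.mem_singleton x')
    have h3 : f x = f x' := h2
    rw [a0, a1] at h3
    exact zero_ne_one h3
  obtain ⟨φ, hφ, hext⟩ := h _ j (hj.isClosedEmbedding hinj)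
  exact ⟨_, j, φ, hj, hφ, hext⟩

theorem main' {X : Type u} [TopologicalSpace X] [CompactSpace X] [T2Space X] {ι : Type u}
    (j : X → ι → unitInterval) (hj : Continuous j) (φ : Cp X → Cp (ι → unitInterval))
    (hφ : Continuous φ) (hext : ∀ (f : Cp X) (x : X), (φ f).1 (j x) = f.1 x)
    (hm : ¬ TopologicalSpace.MetrizableSpace X) :
    ∃ (T : Type u) (_ : Uncountable T) (h : (T → Bool) → X), IsEmbedding h :=
  main j hj (fun y f => (φ f).1 y) (fun g => (φ g).2)
    (fun y => (continuous_apply y).comp (continuous_subtype_val.comp hφ)) hext hm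

theorem emb_of_extral {X : Type u} [TopologicalSpace X] [T35Space X] (h : TExtral X)
    (hm : ¬ TopologicalSpace.MetrizableSpace X) :
    ∃ (T : Type u) (_ : Uncountable T) (h : (T → Bool) → X), IsEmbedding h := by
  have := compact_of_extral h
  obtain ⟨ι, j, φ, hj, hφ, hext⟩ := cube_of_extral h
  exact main' j hj φ hφ hext hm

theorem emb_aleph_one {X : Type u} [TopologicalSpace X] [T2Space X] {T : Type u} [Uncountable T]
    (h : (T → Bool) → X) (hh : IsEmbedding h) (I : Type u) (hI : Cardinal.mk I = Cardinal.aleph 1) :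
    ∃ k : (I → Bool) → X, IsEmbedding k := by
  classical
  have h1 : Cardinal.mk I ≤ Cardinal.mk T := by
    rw [hI, ← Cardinal.succ_aleph0, Order.succ_le_iff]
    exact Cardinal.aleph0_lt_mk_iff.mpr inferInstance
  obtain ⟨k⟩ := (Cardinal.le_def _ _).mp h1
  let ex : (I → Bool) → (T → Bool) := fun s => Function.extend k s (fun _ => false)
  have hc : Continuous ex := by
    refine continuous_pi fun α => ?_
    by_cases hα : ∃ i, k i = α
    · obtain ⟨i, rfl⟩ := hα
      simp only [ex, k.injective.extend_apply]
      exact continuous_apply i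
    · simp only [ex, Function.extend_apply' _ _ _ hα]
      exact continuous_const
  have hi : Function.Injective ex := by
    intro s s' hs
    funext i
    have := congrFun hs (k i)
    simpa only [ex, k.injective.extend_apply] using this
  exact ⟨h ∘ ex, hh.comp (hc.isClosedEmbedding hi).isEmbedding⟩

theorem not_tight {X : Type u} [TopologicalSpace X] [T2Space X] {T : Type u} [Uncountable T]
    (h : (T → Bool) → X) (hh : IsEmbedding h) : ¬ CountablyTight X := by
  classical
  intro ht
  have hlim : Tendsto (fun A : Finset T => (fun α => decide (α ∈ A) : T → Bool)) atTop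
      (𝓝 fun _ => true) := by
    rw [tendsto_pi_nhds]
    intro α
    refine tendsto_const_nhds.congr' ?_
    filter_upwards [eventually_ge_atTop ({α} : Finset T)] with A hA
    simp [hA (Finset.mem_singleton_self α)]
  obtain ⟨B, hB1, hB2, hB3⟩ := ht (Set.range fun A : Finset T => h fun α => decide (α ∈ A))
    (h fun _ => true)
    (mem_closure_of_tendsto ((hh.continuous.tendsto _).comp hlim)
      (Eventually.of_forall fun A => ⟨A, rfl⟩))
  have hA : ∀ x : B, ∃ A : Finset T, (h fun α => decide (α ∈ A)) = x := fun x => hB1 x.2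
  choose A hA using hA
  have : Countable B := hB2.to_subtype
  have hc : (⋃ x : B, (A x : Set T)).Countable := Set.countable_iUnion fun x => (A x).countable_toSet
  have hne : ∃ α, α ∉ ⋃ x : B, (A x : Set T) := by
    by_contra hn
    push Not at hn
    exact Set.not_countable_univ (Set.eq_univ_of_forall hn ▸ hc)
  obtain ⟨α, hα⟩ := hne
  have hcl : IsClosed (h '' {s | s α = false}) := by
    refine (IsCompact.image (IsClosed.isCompact ?_) hh.continuous).isClosed
    exact isClosed_eq (continuous_apply α) continuous_const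
  have hsub : B ⊆ h '' {s | s α = false} := by
    intro x hx
    refine ⟨_, ?_, hA ⟨x, hx⟩⟩
    have : α ∉ A ⟨x, hx⟩ := fun h' => hα (Set.mem_iUnion.mpr ⟨⟨x, hx⟩, h'⟩)
    simp [this]
  obtain ⟨s, hs1, hs2⟩ := closure_minimal hsub hcl hB3
  rw [hh.injective hs2] at hs1
  exact Bool.noConfusion hs1

theorem metrizable_of_tight {X : Type u} [TopologicalSpace X] [T35Space X] (h : TExtral X)
    (ht : CountablyTight X) : TopologicalSpace.MetrizableSpace X := by
  by_contra hm
  obtain ⟨T, _, k, hk⟩ := emb_of_extral h hm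
  exact not_tight k hk ht

theorem metrizable_of_extendial {X : Type u} [TopologicalSpace X] [T35Space X] (h : TExtral X)
    (he : TExtendial X) : TopologicalSpace.MetrizableSpace X := by
  classical
  by_contra hm
  have := compact_of_extral h
  obtain ⟨T, _, k, hk⟩ := emb_of_extral h hm
  obtain ⟨ι, j, φ, hj, hφ, hext⟩ := cube_of_extral h
  let a : T → X := fun d => k fun d' => decide (d' = d)
  let o : X := k fun _ => false
  have hlim : Tendsto a cofinite (𝓝 o) := (hk.continuous.tendsto _).comp (tendsto_single T)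
  have hao : ∀ d, a d ≠ o := by
    intro d hd
    have := congrFun (hk.injective hd) d
    simp at this
  let Y : Set X := insert o (Set.range a)
  have hYc : IsCompact Y := hlim.isCompact_insert_range_of_cofinite
  have : CompactSpace Y := isCompact_iff_compactSpace.mp hYc
  obtain ⟨ψ, hψ, hψe⟩ := he Y hYc.isClosed
  have hYm : ¬ TopologicalSpace.MetrizableSpace Y := by
    intro hY
    let _ := TopologicalSpace.metrizableSpaceMetric Y
    let a' : T → Y := fun d => ⟨a d, Or.inr ⟨d, rfl⟩⟩
    let o' : Y := ⟨o, Or.inl rfl⟩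
    have h1 : Tendsto a' cofinite (𝓝 o') := by
      rw [tendsto_subtype_rng]; exact hlim
    have h2 : Tendsto (fun d => dist (a' d) o') cofinite (𝓝 0) := tendsto_iff_dist_tendsto_zero.mp h1
    have h3 := countable_ne_of_tendsto _ _ h2
    have h4 : {d | dist (a' d) o' ≠ 0} = Set.univ := by
      refine Set.eq_univ_of_forall fun d hd => ?_
      exact hao d (congrArg Subtype.val (dist_eq_zero.mp hd))
    rw [h4] at h3
    exact Set.not_countable_univ h3
  obtain ⟨T', _, k', hk'⟩ := main' (fun y : Y => j y) (hj.comp continuous_subtype_val) (φ ∘ ψ)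
    (hφ.comp hψ) (fun f y => (hext (ψ f) y).trans (hψe f y)) hYm
  refine not_tight k' hk' ?_
  intro A y hy
  by_cases hyA : y ∈ A
  · exact ⟨{y}, Set.singleton_subset_iff.mpr hyA, Set.countable_singleton y,
      subset_closure (Set.mem_singleton y)⟩
  have hAinf : A.Infinite := by
    intro hfin
    rw [hfin.isClosed.closure_eq] at hy
    exact hyA hy
  have hiso : ∀ U : Set X, U ∈ 𝓝 o → {z : Y | z.1 ∉ U}.Finite := by
    intro U hU
    have h1 : {d | a d ∉ U}.Finite := hlim hU
    refine Set.Finite.of_finite_image (f := Subtype.val) ((h1.image a).subset ?_)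
      Subtype.val_injective.injOn
    rintro _ ⟨z, hz, rfl⟩
    rcases z.2 with h' | ⟨d, hd⟩
    · exact absurd (h' ▸ mem_of_mem_nhds hU) hz
    · exact ⟨d, by rw [Set.mem_ofPred_eq, hd]; exact hz, hd⟩
  have hyo : y.1 = o := by
    by_contra hne
    obtain ⟨V, U, hV, hU, hyV, hoU, hdis⟩ := t2_separation hne
    have h1 := hiso U (hU.mem_nhds hoU)
    have h2 : y ∈ closure (A ∩ {z : Y | z.1 ∉ U}) := by
      have h3 : y ∈ closure (Subtype.val ⁻¹' V ∩ A) :=
        (hV.preimage continuous_subtype_val).inter_closure ⟨hyV, hy⟩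
      refine closure_mono ?_ h3
      rintro z ⟨hz1, hz2⟩
      exact ⟨hz2, fun hzU => Set.disjoint_left.mp hdis hz1 hzU⟩
    rw [(h1.subset Set.inter_subset_right).isClosed.closure_eq] at h2
    exact hyA h2.1
  obtain ⟨B, hBA, hBc, hBi⟩ := Set.Infinite.exists_subset_countable_infinite hAinf
  refine ⟨B, hBA, hBc, ?_⟩
  rw [mem_closure_iff_nhds]
  intro W hW
  rw [nhds_induced, mem_comap] at hW
  obtain ⟨U, hU, hUW⟩ := hW
  rw [hyo] at hU
  obtain ⟨z, hz1, hz2⟩ := (hBi.diff (hiso U hU)).nonempty
  exact ⟨z, hUW (not_not.mp hz2), hz1⟩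

end Pool.Agent.H421Z.TExt
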