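import Pool.Agent.H421Z.TEmb.Defs

set_option autoImplicit false

namespace Pool.Agent.H421Z.TExt

open Filter Topology Set Pool.Agent.H421Z.TEmb

universe u w

section interp

variable {X : Type u} [TopologicalSpace X] [CompactSpace X] [T2Space X]

theorem interp (S : Set X) (hS : S.Finite) (v : X → ℝ) : ∃ g : Cp X, ∀ x ∈ S, g.1 x = v x := by
  have : Finite S := hS.to_subtype
  obtain ⟨g, hg⟩ := ContinuousMap.exists_restrict_eq (Y := ℝ) hS.isClosed
    ⟨fun x : S => v x, continuous_of_discreteTopology⟩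
  refine ⟨⟨g, g.continuous⟩, fun x hx => ?_⟩
  exact congrArg (fun k : C(S, ℝ) => k ⟨x, hx⟩) hg

end interp

variable {X : Type u} [TopologicalSpace X] [CompactSpace X] [T2Space X]
variable {P : Type u} [TopologicalSpace P] [CompactSpace P] [T2Space P]

/-- The points `S l`, `l ∈ I`, control the value of the functional near `f`. -/
def Sup (ψ : Cp X → ℝ) (f : Cp X) (b δ : ℝ) {N : ℕ} (I : Finset (Fin N)) (S : Fin N → X) : Prop :=
  ∀ g : Cp X, (∀ l ∈ I, |g.1 (S l) - f.1 (S l)| < δ) → b ≤ ψ g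

omit [CompactSpace X] [T2Space X] [CompactSpace P] [T2Space P] in
theorem sup_closed (Ψ : P → Cp X → ℝ) (h1 : ∀ g, Continuous fun y => Ψ y g) (f : Cp X) (b δ : ℝ)
    (N : ℕ) : IsClosed {p : P × (Fin N → X) | Sup (Ψ p.1) f b δ Finset.univ p.2} := by
  have : {p : P × (Fin N → X) | Sup (Ψ p.1) f b δ Finset.univ p.2} =
      ⋂ g : Cp X, ((⋂ l : Fin N, {p : P × (Fin N → X) | |g.1 (p.2 l) - f.1 (p.2 l)| < δ})ᶜ ∪
        {p | b ≤ Ψ p.1 g}) := by
    ext p
    simp only [Sup, Finset.mem_univ, forall_true_left, mem_ofPred_eq, mem_iInter, mem_union,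
      mem_compl_iff]
    exact forall_congr' fun g => imp_iff_not_or
  rw [this]
  refine isClosed_iInter fun g => IsClosed.union ?_ ?_
  · rw [isClosed_compl_iff]
    refine isOpen_iInter_of_finite fun l => isOpen_lt ?_ continuous_const
    have hc : Continuous fun p : P × (Fin N → X) => p.2 l := (continuous_apply l).comp continuous_snd
    exact ((g.2.comp hc).sub (f.2.comp hc)).abs
  · exact isClosed_le continuous_const ((h1 g).comp continuous_fst)

omit [CompactSpace X] [T2Space X] in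
theorem sup_point (x0 : X) (ψ : Cp X → ℝ) (h2 : Continuous ψ) (f : Cp X) (b : ℝ) (hb : b < ψ f) :
    ∃ (N : ℕ) (S : Fin N → X), Sup ψ f b (1 / ((N : ℝ) + 1)) Finset.univ S := by
  classical
  have hev : ∀ᶠ g in 𝓝 f, b < ψ g := continuousAt_const.eventually_lt h2.continuousAt hb
  rw [nhds_induced, Filter.eventually_comap, nhds_pi] at hev
  obtain ⟨I, t, ht, hsub⟩ := Filter.mem_pi'.mp hev
  have hr : ∀ᶠ M : ℕ in atTop, ∀ x ∈ I, Metric.ball (f.1 x) (1 / ((M : ℝ) + 1)) ⊆ t x := by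
    rw [Filter.eventually_all_finset]
    intro x _
    obtain ⟨r, hr, hr'⟩ := Metric.mem_nhds_iff.mp (ht x)
    have : ∀ᶠ M : ℕ in atTop, 1 / ((M : ℝ) + 1) < r :=
      tendsto_one_div_add_atTop_nhds_zero_nat.eventually (gt_mem_nhds hr)
    filter_upwards [this] with M hM
    exact (Metric.ball_subset_ball hM.le).trans hr'
  obtain ⟨N, hN1, hN2⟩ := (hr.and (eventually_ge_atTop I.card)).exists
  refine ⟨N, fun l => if h : l.1 < I.card then (I.equivFin.symm ⟨l.1, h⟩ : X) else x0, ?_⟩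
  intro g hg
  have hmem : g.1 ∈ Set.pi (↑I) t := by
    intro x hx
    apply hN1 x hx
    have := hg ⟨(I.equivFin ⟨x, hx⟩).1, lt_of_lt_of_le (I.equivFin ⟨x, hx⟩).2 hN2⟩ (Finset.mem_univ _)
    simp only [Fin.is_lt, dite_true, Fin.eta, Equiv.symm_apply_apply] at this
    rw [Metric.mem_ball, Real.dist_eq]
    exact this
  exact (hsub hmem g rfl).le

omit [T2Space X] in
theorem sup_baire (x0 : X) (Ψ : P → Cp X → ℝ) (h1 : ∀ g, Continuous fun y => Ψ y g)
    (h2 : ∀ y, Continuous (Ψ y)) (f : Cp X) (b : ℝ) (G0 : Set P) (ho : IsOpen G0)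
    (hne : G0.Nonempty) (hb : ∀ y ∈ G0, b < Ψ y f) :
    ∃ (N : ℕ) (G : Set P), IsOpen G ∧ G.Nonempty ∧ G ⊆ G0 ∧
      ∀ y ∈ closure G, ∃ S : Fin N → X, Sup (Ψ y) f b (1 / ((N : ℝ) + 1)) Finset.univ S := by
  set Z : ℕ → Set P := fun N => Prod.fst ''
    {p : P × (Fin N → X) | Sup (Ψ p.1) f b (1 / ((N : ℝ) + 1)) Finset.univ p.2} with hZ
  have hZc : ∀ N, IsClosed (Z N) := fun N =>
    ((sup_closed Ψ h1 f b _ N).isCompact.image continuous_fst).isClosed
  have hc : ∀ N, IsClosed (Z N ∪ G0ᶜ) := fun N => (hZc N).union ho.isClosed_compl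
  have hcov : ⋃ N, (Z N ∪ G0ᶜ) = univ := by
    rw [eq_univ_iff_forall]
    intro y
    rw [mem_iUnion]
    by_cases hy : y ∈ G0
    · obtain ⟨N, S, hS⟩ := sup_point x0 (Ψ y) (h2 y) f b (hb y hy)
      exact ⟨N, Or.inl ⟨(y, S), hS, rfl⟩⟩
    · exact ⟨0, Or.inr hy⟩
  obtain ⟨z, hz0, hz⟩ := (dense_iUnion_interior_of_closed hc hcov).inter_open_nonempty G0 ho hne
  obtain ⟨N, hN⟩ := mem_iUnion.mp hz
  refine ⟨N, G0 ∩ interior (Z N ∪ G0ᶜ), ho.inter isOpen_interior, ⟨z, hz0, hN⟩, inter_subset_left, ?_⟩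
  intro y hy
  have hsub : G0 ∩ interior (Z N ∪ G0ᶜ) ⊆ Z N := by
    rintro x ⟨hx1, hx2⟩
    rcases interior_subset hx2 with h | h
    · exact h
    · exact absurd hx1 h
  obtain ⟨p, hp, rfl⟩ := closure_minimal hsub (hZc N) hy
  exact ⟨p.2, hp⟩

/-- An irreducible map over the open set `G`. -/
structure Irr {E : Type w} [TopologicalSpace E] (π : E → P) (G : Set P) : Prop where
  cont : Continuous π
  surj : ∀ y ∈ G, ∃ e, π e = y
  irr : ∀ Q : Set E, IsOpen Q → Q.Nonempty →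
    ∃ G' : Set P, IsOpen G' ∧ G'.Nonempty ∧ G' ⊆ G ∧ π ⁻¹' G' ⊆ Q

theorem exists_irr {A : Type u} [TopologicalSpace A] [CompactSpace A] (Γ : Set (P × A))
    (hΓ : IsClosed Γ) (G : Set P) (hG : IsOpen G) (hs : ∀ y ∈ closure G, ∃ a, (y, a) ∈ Γ) :
    ∃ (E : Type u) (_ : TopologicalSpace E) (_ : CompactSpace E) (π : E → P) (C : E → A),
      Irr π G ∧ Continuous C ∧ ∀ e, (π e, C e) ∈ Γ := by
  set D : Set (P × A) := Γ ∩ Prod.fst ⁻¹' closure G with hD
  have hDc : IsClosed D := hΓ.inter (isClosed_closure.preimage continuous_fst)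
  have : CompactSpace D := isCompact_iff_compactSpace.mp hDc.isCompact
  let p : D → closure G := fun d => ⟨d.1.1, d.2.2⟩
  have hp : Continuous p := (continuous_fst.comp continuous_subtype_val).subtype_mk _
  have hps : Function.Surjective p := by
    rintro ⟨y, hy⟩
    obtain ⟨a, ha⟩ := hs y hy
    exact ⟨⟨(y, a), ha, hy⟩, rfl⟩
  obtain ⟨E, hE, hE1, hE2⟩ := exists_compact_surjective_zorn_subset hp hps
  have hπ : Continuous fun e : E => e.1.1.1 :=
    continuous_fst.comp (continuous_subtype_val.comp continuous_subtype_val)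
  refine ⟨E, inferInstance, hE, fun e => e.1.1.1, fun e => e.1.1.2, ⟨hπ, ?_, ?_⟩,
    continuous_snd.comp (continuous_subtype_val.comp continuous_subtype_val), fun e => e.1.2.1⟩
  · intro y hy
    have : (⟨y, subset_closure hy⟩ : closure G) ∈ p '' E := hE1 ▸ mem_univ _
    obtain ⟨d, hd, hd'⟩ := this
    exact ⟨⟨d, hd⟩, congrArg Subtype.val hd'⟩
  · intro Q hQ hQne
    have hne : Qᶜ ≠ univ := by
      rw [ne_eq, compl_univ_iff]
      exact hQne.ne_empty
    have h1 := hE2 Qᶜ hne hQ.isClosed_compl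
    rw [ne_univ_iff_exists_notMem] at h1
    obtain ⟨y, hy⟩ := h1
    have hcl : IsClosed ((fun e : E => e.1.1.1) '' Qᶜ) :=
      (hQ.isClosed_compl.isCompact.image hπ).isClosed
    have hy' : y.1 ∈ ((fun e : E => e.1.1.1) '' Qᶜ)ᶜ := by
      rintro ⟨e, he, he'⟩
      exact hy ⟨e, he, Subtype.ext he'⟩
    obtain ⟨z, hz1, hz2⟩ := mem_closure_iff.mp y.2 _ hcl.isOpen_compl hy'
    refine ⟨((fun e : E => e.1.1.1) '' Qᶜ)ᶜ ∩ G, hcl.isOpen_compl.inter hG, ⟨z, hz1, hz2⟩,
      inter_subset_right, ?_⟩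
    intro e he
    by_contra hq
    exact he.1 ⟨e, hq, rfl⟩

variable {E : Type w} [TopologicalSpace E] [CompactSpace E]

omit [CompactSpace P] [T2Space P] [CompactSpace E] in
theorem Irr.sub {π : E → P} {G : Set P} (h : Irr π G) (Q : Set E) (hQ : IsOpen Q) (hne : Q.Nonempty)
    (G1 : Set P) (hsub : Q ⊆ π ⁻¹' G1) :
    ∃ G' : Set P, IsOpen G' ∧ G'.Nonempty ∧ G' ⊆ G ∧ G' ⊆ G1 ∧ π ⁻¹' G' ⊆ Q := by
  obtain ⟨G', h1, h2, h3, h4⟩ := h.irr Q hQ hne
  refine ⟨G', h1, h2, h3, fun y hy => ?_, h4⟩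
  obtain ⟨e, rfl⟩ := h.surj y (h3 hy)
  exact hsub (h4 hy)

omit [CompactSpace E] in
theorem fiber_const {π : E → P} {G : Set P} (h : Irr π G) (c : E → X) (hc : Continuous c) {M : ℕ}
    (Γ : Set (P × (Fin M → X))) (hΓ : IsClosed Γ) (G3 : Set P) (ho : IsOpen G3) (hne : G3.Nonempty)
    (hsub : G3 ⊆ G) (hs : ∀ y ∈ G3, ∃ S, (y, S) ∈ Γ)
    (hin : ∀ e, π e ∈ G3 → ∀ S, (π e, S) ∈ Γ → ∃ l, S l = c e) :
    ∃ G4 : Set P, IsOpen G4 ∧ G4.Nonempty ∧ G4 ⊆ G3 ∧
      ∀ e e', π e ∈ G4 → π e = π e' → c e = c e' := by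
  classical
  by_contra hcon
  push Not at hcon
  have key : ∀ k : ℕ, ∃ (G' : Set P) (O : Set X), IsOpen G' ∧ G'.Nonempty ∧ G' ⊆ G3 ∧ IsOpen O ∧
      (∀ e, π e ∈ G' → c e ∈ O) ∧
      ∀ y ∈ G', ∀ S, (y, S) ∈ Γ → k ≤ (Finset.univ.filter fun l => S l ∉ O).card := by
    intro k
    induction k with
    | zero => exact ⟨G3, univ, ho, hne, Subset.rfl, isOpen_univ, fun _ _ => mem_univ _,
        fun _ _ _ _ => Nat.zero_le _⟩
    | succ k ih =>
      obtain ⟨G', O, h1, h2, h3, h4, h5, h6⟩ := ih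
      obtain ⟨e, e', he, hee, hcc⟩ := hcon G' h1 h2 h3
      obtain ⟨U, U', hU, hU', heU, heU', hdis⟩ := t2_separation hcc
      set B : Set P := Prod.fst '' (Γ ∩ {p | ∀ l, p.2 l ∉ U' ∩ O}) with hB
      have hBc : IsClosed B := by
        refine (IsClosed.isCompact (hΓ.inter ?_)).image continuous_fst |>.isClosed
        have : {p : P × (Fin M → X) | ∀ l, p.2 l ∉ U' ∩ O} =
            ⋂ l, (fun p : P × (Fin M → X) => p.2 l) ⁻¹' (U' ∩ O)ᶜ := by
          ext p; simp only [mem_ofPred_eq, mem_iInter, mem_preimage, mem_compl_iff]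
        rw [this]
        exact isClosed_iInter fun l => (hU'.inter h4).isClosed_compl.preimage
          ((continuous_apply l).comp continuous_snd)
      have heB : π e ∉ B := by
        rintro ⟨⟨y, S⟩, ⟨hp1, hp2⟩, hp3⟩
        simp only at hp3
        subst hp3
        obtain ⟨l, hl⟩ := hin e' (hee ▸ h3 he) S (hee ▸ hp1)
        exact hp2 l (by
          show S l ∈ U' ∩ O
          rw [hl]
          exact ⟨heU', h5 e' (hee ▸ he)⟩)
      obtain ⟨G'', g1, g2, -, g4, g5⟩ := h.sub (π ⁻¹' (G' ∩ Bᶜ) ∩ c ⁻¹' U)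
        (((h1.inter hBc.isOpen_compl).preimage h.cont).inter (hU.preimage hc))
        ⟨e, ⟨he, heB⟩, heU⟩ (G' ∩ Bᶜ) inter_subset_left
      refine ⟨G'', U ∩ O, g1, g2, fun y hy => h3 (g4 hy).1, hU.inter h4,
        fun x hx => ⟨(g5 hx).2, h5 x (g4 hx).1⟩, fun y hy S hS => ?_⟩
      have h7 := h6 y (g4 hy).1 S hS
      have h8 : ∃ l, S l ∈ U' ∩ O := by
        by_contra hno
        push Not at hno
        exact (g4 hy).2 ⟨(y, S), ⟨hS, hno⟩, rfl⟩
      obtain ⟨l0, hl0⟩ := h8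
      have h9 : (Finset.univ.filter fun l => S l ∉ O) ⊂ Finset.univ.filter fun l => S l ∉ U ∩ O := by
        rw [Finset.ssubset_iff_of_subset]
        · refine ⟨l0, ?_, ?_⟩
          · simp only [Finset.mem_filter, Finset.mem_univ, true_and]
            intro hh
            exact (Set.disjoint_left.mp hdis) hh.1 hl0.1
          · simp only [Finset.mem_filter, Finset.mem_univ, true_and, not_not]
            exact hl0.2
        · intro l hl
          simp only [Finset.mem_filter, Finset.mem_univ, true_and] at hl ⊢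
          exact fun hh => hl hh.2
      have := Finset.card_lt_card h9
      have h10 : k + 1 ≤ (Finset.univ.filter fun l => S l ∉ U ∩ O).card := by omega
      convert h10
  obtain ⟨G', O, -, ⟨y, hy⟩, h3, -, -, h6⟩ := key (M + 1)
  obtain ⟨S, hS⟩ := hs y (h3 hy)
  have h7 := h6 y hy S hS
  have h8 := Finset.card_filter_le (Finset.univ : Finset (Fin M)) fun l => S l ∉ O
  rw [Finset.card_univ, Fintype.card_fin] at h8
  omega

omit [CompactSpace X] [T2Space X] [CompactSpace P] in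
theorem descend (x0 : X) {π : E → P} {G : Set P} (h : Irr π G) (c : E → X) (hc : Continuous c)
    (G4 : Set P) (hsub : G4 ⊆ G) (hf : ∀ e e', π e ∈ G4 → π e = π e' → c e = c e') :
    ∃ c' : P → X, ContinuousOn c' G4 ∧ ∀ e, π e ∈ G4 → c' (π e) = c e := by
  classical
  let c' : P → X := fun y => if hy : ∃ e, π e = y then c hy.choose else x0
  have h1 : ∀ e, π e ∈ G4 → c' (π e) = c e := by
    intro e he
    have hy : ∃ e', π e' = π e := ⟨e, rfl⟩
    simp only [c', dif_pos hy]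
    exact (hf e _ he hy.choose_spec.symm).symm
  refine ⟨c', ?_, h1⟩
  rw [continuousOn_iff_isClosed]
  intro t ht
  refine ⟨π '' (c ⁻¹' t), ((ht.preimage hc).isCompact.image h.cont).isClosed, ?_⟩
  ext y
  constructor
  · rintro ⟨hy1, hy2⟩
    obtain ⟨e, rfl⟩ := h.surj y (hsub hy2)
    exact ⟨⟨e, by rw [mem_preimage, ← h1 e hy2]; exact hy1, rfl⟩, hy2⟩
  · rintro ⟨⟨e, he, rfl⟩, hy2⟩
    exact ⟨by rw [mem_preimage, h1 e hy2]; exact he, hy2⟩

omit [CompactSpace E] in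
theorem key_step (x0 : X) (Ψ : P → Cp X → ℝ) (h1 : ∀ g, Continuous fun y => Ψ y g)
    (h2 : ∀ y, Continuous (Ψ y)) (f : Cp X) (b δ : ℝ) (hδ : 0 < δ) {π : E → P} {G : Set P}
    (h : Irr π G) {N : ℕ} (C : E → Fin N → X) (hC : Continuous C) (I : Finset (Fin N)) (i : Fin N)
    (G1 : Set P) (ho : IsOpen G1) (hS : ∀ e, π e ∈ G1 → Sup (Ψ (π e)) f b δ I (C e))
    (hno : ¬ ∀ e, π e ∈ G1 → Sup (Ψ (π e)) f b δ (I.erase i) (C e)) :
    ∃ G4 : Set P, IsOpen G4 ∧ G4.Nonempty ∧ G4 ⊆ G ∧ G4 ⊆ G1 ∧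
      ∀ e e', π e ∈ G4 → π e = π e' → C e i = C e' i := by
  classical
  simp only [Sup, not_forall, not_le] at hno
  obtain ⟨e0, he0, g, hg, hlt⟩ := hno
  obtain ⟨b', hb1, hb2⟩ := exists_between hlt
  have hCl : ∀ l, Continuous fun e => C e l := fun l => (continuous_apply l).comp hC
  set Q : Set E := π ⁻¹' G1 ∩ ((⋂ l ∈ I.erase i, {e | |g.1 (C e l) - f.1 (C e l)| < δ}) ∩
    {e | Ψ (π e) g < b'}) with hQ
  have hQo : IsOpen Q := by
    refine (ho.preimage h.cont).inter (IsOpen.inter ?_ ?_)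
    · refine isOpen_biInter_finset fun l _ => isOpen_lt ?_ continuous_const
      exact ((g.2.comp (hCl l)).sub (f.2.comp (hCl l))).abs
    · exact isOpen_lt ((h1 g).comp h.cont) continuous_const
  have hQne : Q.Nonempty := ⟨e0, he0, by
    simp only [mem_iInter, mem_ofPred_eq]; exact hg, hb1⟩
  obtain ⟨G2, g1, g2, g3, g4, g5⟩ := h.sub Q hQo hQne G1 inter_subset_left
  obtain ⟨M, G3, k1, k2, k3, k4⟩ := sup_baire x0 (fun y g' => -Ψ y g') (fun g' => (h1 g').neg)
    (fun y => (h2 y).neg) g (-b') G2 g1 g2 (by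
      intro y hy
      obtain ⟨e, rfl⟩ := h.surj y (g3 hy)
      have : Ψ (π e) g < b' := (g5 hy).2.2
      linarith)
  obtain ⟨G4, m1, m2, m3, m4⟩ := fiber_const h (fun e => C e i) (hCl i) _
    (sup_closed (fun y g' => -Ψ y g') (fun g' => (h1 g').neg) g (-b') (1 / ((M : ℝ) + 1)) M)
    G3 k1 k2 (k3.trans g3) (fun y hy => k4 y (subset_closure hy)) (by
      intro e he S hS'
      by_contra hcon
      push Not at hcon
      have heQ : e ∈ Q := g5 (k3 he)
      obtain ⟨q1, q2, q3⟩ := heQ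
      simp only [mem_iInter, mem_ofPred_eq] at q2 q3
      obtain ⟨g', hg'⟩ := interp (range S ∪ range (C e)) ((finite_range S).union (finite_range _))
        (Function.update g.1 (C e i) (f.1 (C e i)))
      have a1 : b ≤ Ψ (π e) g' := by
        apply hS e q1
        intro l hl
        rw [hg' _ (Or.inr ⟨l, rfl⟩)]
        by_cases hli : C e l = C e i
        · rw [hli, Function.update_self, sub_self, abs_zero]; exact hδ
        · rw [Function.update_of_ne hli]
          refine q2 l (Finset.mem_erase.mpr ⟨?_, hl⟩)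
          rintro rfl
          exact hli rfl
      have a2 : -b' ≤ -Ψ (π e) g' := by
        apply hS'
        intro l _
        show |g'.1 (S l) - g.1 (S l)| < _
        rw [hg' _ (Or.inl ⟨l, rfl⟩), Function.update_of_ne (hcon l), sub_self, abs_zero]
        positivity
      linarith)
  exact ⟨G4, m1, m2, m3.trans (k3.trans g3), m3.trans (k3.trans g4), m4⟩

/-- On a dense set of parameters the controlling points can be chosen continuously. -/
theorem generic (x0 : X) (Ψ : P → Cp X → ℝ) (h1 : ∀ g, Continuous fun y => Ψ y g)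
    (h2 : ∀ y, Continuous (Ψ y)) (f : Cp X) (b : ℝ) (G0 : Set P) (ho : IsOpen G0)
    (hne : G0.Nonempty) (hb : ∀ y ∈ G0, b < Ψ y f) :
    ∃ (N : ℕ) (G : Set P) (c : ℕ → P → X), IsOpen G ∧ G.Nonempty ∧ G ⊆ G0 ∧
      (∀ l, ContinuousOn (c l) G) ∧ ∀ y ∈ G, ∀ g : Cp X,
        (∀ l < N, |g.1 (c l y) - f.1 (c l y)| < 1 / ((N : ℝ) + 1)) → b ≤ Ψ y g := by
  classical
  obtain ⟨N, G, k1, k2, k3, k4⟩ := sup_baire x0 Ψ h1 h2 f b G0 ho hne hb
  obtain ⟨E, _, _, π, C, h, hC, hΓ⟩ := exists_irr _ (sup_closed Ψ h1 f b (1 / ((N : ℝ) + 1)) N) G k1 k4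
  have hδ : (0 : ℝ) < 1 / ((N : ℝ) + 1) := by positivity
  have key : ∀ J : Finset (Fin N), ∃ (G' : Set P) (I : Finset (Fin N)), IsOpen G' ∧ G'.Nonempty ∧
      G' ⊆ G ∧ (∀ e, π e ∈ G' → Sup (Ψ (π e)) f b (1 / ((N : ℝ) + 1)) I (C e)) ∧
      ∀ l ∈ J, l ∈ I → ∀ e e', π e ∈ G' → π e = π e' → C e l = C e' l := by
    intro J
    induction J using Finset.induction_on with
    | empty => exact ⟨G, Finset.univ, k1, k2, Subset.rfl, fun e _ => hΓ e, by simp⟩
    | insert i J _ ih =>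
      obtain ⟨G', I, a1, a2, a3, a4, a5⟩ := ih
      by_cases hc : ∀ e, π e ∈ G' → Sup (Ψ (π e)) f b (1 / ((N : ℝ) + 1)) (I.erase i) (C e)
      · refine ⟨G', I.erase i, a1, a2, a3, hc, fun l hl hlI => ?_⟩
        obtain ⟨hl1, hl2⟩ := Finset.mem_erase.mp hlI
        rcases Finset.mem_insert.mp hl with h' | h'
        · exact absurd h' hl1
        · exact a5 l h' hl2
      · obtain ⟨G4, m1, m2, m3, m4, m5⟩ := key_step x0 Ψ h1 h2 f b _ hδ h C hC I i G' a1 a4 hc
        refine ⟨G4, I, m1, m2, m3, fun e he => a4 e (m4 he), fun l hl hlI => ?_⟩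
        rcases Finset.mem_insert.mp hl with h' | h'
        · rw [h']; exact m5
        · exact fun e e' he hee => a5 l h' hlI e e' (m4 he) hee
  obtain ⟨G', I, a1, a2, a3, a4, a5⟩ := key Finset.univ
  have hd : ∀ l : Fin N, ∃ c' : P → X, ContinuousOn c' G' ∧
      (l ∈ I → ∀ e, π e ∈ G' → c' (π e) = C e l) := by
    intro l
    by_cases hl : l ∈ I
    · obtain ⟨c', b1, b2⟩ := descend x0 h (fun e => C e l) ((continuous_apply l).comp hC) G' a3
        (a5 l (Finset.mem_univ _) hl)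
      exact ⟨c', b1, fun _ => b2⟩
    · exact ⟨fun _ => x0, continuousOn_const, fun h' => absurd h' hl⟩
  choose c' hc1 hc2 using hd
  refine ⟨N, G', fun l => if hl : l < N then c' ⟨l, hl⟩ else fun _ => x0, a1, a2, a3.trans k3,
    fun l => ?_, fun y hy g hg => ?_⟩
  · by_cases hl : l < N
    · simp only [dif_pos hl]; exact hc1 _
    · simp only [dif_neg hl]; exact continuousOn_const
  · obtain ⟨e, rfl⟩ := h.surj y (a3 hy)
    apply a4 e hy
    intro l hl
    have := hg l.1 l.2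
    simp only [Fin.is_lt, dite_true, Fin.eta] at this
    rw [hc2 l hl e hy] at this
    exact this

end Pool.Agent.H421Z.TExt
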