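import Pool.Agent.H421Z.TExt.Gen

set_option autoImplicit false

namespace Pool.Agent.H421Z.TExt

open Filter Topology Set Pool.Agent.H421Z.TEmb

universe u w

variable {X : Type u} [TopologicalSpace X] [CompactSpace X] [T2Space X]
variable {P : Type u} [TopologicalSpace P] [CompactSpace P] [T2Space P]
variable {E : Type w} [TopologicalSpace E]

/-- The point `x` lies in every finite set that keeps the functional below `b` near `g`. -/
def Ess (ψ : Cp X → ℝ) (g : Cp X) (b : ℝ) (x : X) : Prop :=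
  ψ g < b ∧ ∀ S : Set X, S.Finite → (∀ g' : Cp X, (∀ z ∈ S, g'.1 z = g.1 z) → ψ g' < b) → x ∈ S

theorem key_step2 (x0 : X) (Ψ : P → Cp X → ℝ) (h1 : ∀ g, Continuous fun y => Ψ y g)
    (h2 : ∀ y, Continuous (Ψ y)) (f : Cp X) (b δ : ℝ) (hδ : 0 < δ) {π : E → P} {G : Set P}
    (h : Irr π G) {N : ℕ} (C : E → Fin N → X) (hC : Continuous C) (I : Finset (Fin N)) (i : Fin N)
    (G1 : Set P) (ho : IsOpen G1) (hS : ∀ e, π e ∈ G1 → Sup (Ψ (π e)) f b δ I (C e))
    (hno : ¬ ∀ e, π e ∈ G1 → Sup (Ψ (π e)) f b δ (I.erase i) (C e)) :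
    ∃ (G4 : Set P) (g : Cp X), IsOpen G4 ∧ G4.Nonempty ∧ G4 ⊆ G ∧ G4 ⊆ G1 ∧
      (∀ e e', π e ∈ G4 → π e = π e' → C e i = C e' i) ∧
      ∀ e, π e ∈ G4 → Ess (Ψ (π e)) g b (C e i) := by
  classical
  simp only [Sup, not_forall, not_le] at hno
  obtain ⟨e0, he0, g, hg, hlt⟩ := hno
  have hCl : ∀ l, Continuous fun e => C e l := fun l => (continuous_apply l).comp hC
  set Q : Set E := π ⁻¹' G1 ∩ ((⋂ l ∈ I.erase i, {e | |g.1 (C e l) - f.1 (C e l)| < δ}) ∩
    {e | Ψ (π e) g < b}) with hQ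
  have hQo : IsOpen Q := by
    refine (ho.preimage h.cont).inter (IsOpen.inter ?_ ?_)
    · refine isOpen_biInter_finset fun l _ => isOpen_lt ?_ continuous_const
      exact ((g.2.comp (hCl l)).sub (f.2.comp (hCl l))).abs
    · exact isOpen_lt ((h1 g).comp h.cont) continuous_const
  have hQne : Q.Nonempty := ⟨e0, he0, by
    simp only [mem_iInter, mem_ofPred_eq]; exact hg, hlt⟩
  obtain ⟨G2, g1, g2, g3, g4, g5⟩ := h.sub Q hQo hQne G1 inter_subset_left
  obtain ⟨G4, m1, m2, m3, m4, m5⟩ := key_step x0 Ψ h1 h2 f b δ hδ h C hC I i G2 g1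
    (fun e he => hS e (g4 he)) (by
      intro hall
      obtain ⟨y, hy⟩ := g2
      obtain ⟨e, rfl⟩ := h.surj y (g3 hy)
      obtain ⟨-, q2, q3⟩ := g5 hy
      simp only [mem_iInter, mem_ofPred_eq] at q2 q3
      have := hall e hy g q2
      linarith)
  refine ⟨G4, g, m1, m2, m3, m4.trans g4, m5, fun e he => ?_⟩
  obtain ⟨q1, q2, q3⟩ := g5 (m4 he)
  simp only [mem_iInter, mem_ofPred_eq] at q2 q3
  refine ⟨q3, fun S hSf hS' => ?_⟩
  by_contra hcon
  obtain ⟨g', hg'⟩ := interp (S ∪ range (C e)) (hSf.union (finite_range _))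
    (Function.update g.1 (C e i) (f.1 (C e i)))
  have a1 : b ≤ Ψ (π e) g' := by
    apply hS e q1
    intro l hl
    rw [hg' _ (Or.inr ⟨l, rfl⟩)]
    by_cases hli : C e l = C e i
    · rw [hli, Function.update_self, sub_self, abs_zero]; exact hδ
    · rw [Function.update_of_ne hli]
      refine q2 l (Finset.mem_erase.mpr ⟨?_, hl⟩)
      rintro rfl
      exact hli rfl
  have a2 : Ψ (π e) g' < b := by
    apply hS'
    intro z hz
    rw [hg' _ (Or.inl hz), Function.update_of_ne]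
    rintro rfl
    exact hcon hz
  linarith

theorem generic2 (x0 : X) (Ψ : P → Cp X → ℝ) (h1 : ∀ g, Continuous fun y => Ψ y g)
    (h2 : ∀ y, Continuous (Ψ y)) (f : Cp X) (b : ℝ) (G0 : Set P) (ho : IsOpen G0)
    (hne : G0.Nonempty) (hb : ∀ y ∈ G0, b < Ψ y f) :
    ∃ (N : ℕ) (G : Set P) (c : Fin N → P → X), IsOpen G ∧ G.Nonempty ∧ G ⊆ G0 ∧
      (∀ l, ContinuousOn (c l) G) ∧ (∀ y ∈ G, ∀ g : Cp X,
        (∀ l, |g.1 (c l y) - f.1 (c l y)| < 1 / ((N : ℝ) + 1)) → b ≤ Ψ y g) ∧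
      ∀ l, (∀ y, c l y = x0) ∨ ∃ g : Cp X, ∀ y ∈ G, Ess (Ψ y) g b (c l y) := by
  classical
  obtain ⟨N, G, k1, k2, k3, k4⟩ := sup_baire x0 Ψ h1 h2 f b G0 ho hne hb
  obtain ⟨E, _, _, π, C, h, hC, hΓ⟩ := exists_irr _ (sup_closed Ψ h1 f b (1 / ((N : ℝ) + 1)) N) G k1 k4
  have hδ : (0 : ℝ) < 1 / ((N : ℝ) + 1) := by positivity
  have key : ∀ J : Finset (Fin N), ∃ (G' : Set P) (I : Finset (Fin N)), IsOpen G' ∧ G'.Nonempty ∧
      G' ⊆ G ∧ (∀ e, π e ∈ G' → Sup (Ψ (π e)) f b (1 / ((N : ℝ) + 1)) I (C e)) ∧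
      ∀ l ∈ J, l ∈ I → (∀ e e', π e ∈ G' → π e = π e' → C e l = C e' l) ∧
        ∃ g : Cp X, ∀ e, π e ∈ G' → Ess (Ψ (π e)) g b (C e l) := by
    intro J
    induction J using Finset.induction_on with
    | empty => exact ⟨G, Finset.univ, k1, k2, Subset.rfl, fun e _ => hΓ e, by simp⟩
    | insert i J _ ih =>
      obtain ⟨G', I, a1, a2, a3, a4, a5⟩ := ih
      by_cases hc : ∀ e, π e ∈ G' → Sup (Ψ (π e)) f b (1 / ((N : ℝ) + 1)) (I.erase i) (C e)
      · refine ⟨G', I.erase i, a1, a2, a3, hc, fun l hl hlI => ?_⟩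
        obtain ⟨hl1, hl2⟩ := Finset.mem_erase.mp hlI
        rcases Finset.mem_insert.mp hl with h' | h'
        · exact absurd h' hl1
        · exact a5 l h' hl2
      · obtain ⟨G4, g, m1, m2, m3, m4, m5, m6⟩ :=
          key_step2 x0 Ψ h1 h2 f b _ hδ h C hC I i G' a1 a4 hc
        refine ⟨G4, I, m1, m2, m3, fun e he => a4 e (m4 he), fun l hl hlI => ?_⟩
        rcases Finset.mem_insert.mp hl with h' | h'
        · rw [h']; exact ⟨m5, g, m6⟩
        · obtain ⟨b1, g', b2⟩ := a5 l h' hlI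
          exact ⟨fun e e' he hee => b1 e e' (m4 he) hee, g', fun e he => b2 e (m4 he)⟩
  obtain ⟨G', I, a1, a2, a3, a4, a5⟩ := key Finset.univ
  have hd : ∀ l : Fin N, ∃ c' : P → X, ContinuousOn c' G' ∧
      (l ∈ I → ∀ e, π e ∈ G' → c' (π e) = C e l) ∧ (l ∉ I → ∀ y, c' y = x0) := by
    intro l
    by_cases hl : l ∈ I
    · obtain ⟨c', b1, b2⟩ := descend x0 h (fun e => C e l) ((continuous_apply l).comp hC) G' a3
        (a5 l (Finset.mem_univ _) hl).1
      exact ⟨c', b1, fun _ => b2, fun h' => absurd hl h'⟩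
    · exact ⟨fun _ => x0, continuousOn_const, fun h' => absurd h' hl, fun _ _ => rfl⟩
  choose c' hc1 hc2 hc3 using hd
  refine ⟨N, G', c', a1, a2, a3.trans k3, hc1, fun y hy g hg => ?_, fun l => ?_⟩
  · obtain ⟨e, rfl⟩ := h.surj y (a3 hy)
    apply a4 e hy
    intro l hl
    have := hg l
    rw [hc2 l hl e hy] at this
    exact this
  · by_cases hl : l ∈ I
    · right
      obtain ⟨g, hg⟩ := (a5 l (Finset.mem_univ _) hl).2
      refine ⟨g, fun y hy => ?_⟩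
      obtain ⟨e, rfl⟩ := h.surj y (a3 hy)
      rw [hc2 l hl e hy]
      exact hg e hy
    · exact Or.inl (hc3 l hl)

end Pool.Agent.H421Z.TExt
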