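import Pool.Agent.H421Z.TExt.Gen2

set_option autoImplicit false

namespace Pool.Agent.H421Z.TExt

open Filter Topology Set Pool.Agent.H421Z.TEmb

universe u

theorem exact_sup' {X : Type u} [TopologicalSpace X] (ψ : Cp X → ℝ) (h2 : Continuous ψ) (f : Cp X)
    (V : Set ℝ) (hV : V ∈ 𝓝 (ψ f)) :
    ∃ S : Finset X, ∀ g : Cp X, (∀ x ∈ S, g.1 x = f.1 x) → ψ g ∈ V := by
  have hev : ∀ᶠ g in 𝓝 f, ψ g ∈ V := h2.continuousAt hV
  rw [nhds_induced, Filter.eventually_comap, nhds_pi] at hev
  obtain ⟨I, t, ht, hsub⟩ := Filter.mem_pi'.mp hev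
  refine ⟨I, fun g hg => hsub (fun x hx => ?_) g rfl⟩
  rw [hg x hx]
  exact mem_of_mem_nhds (ht x)

/-- Generic continuous supports for a separately continuous family of functionals on `C_p(Y)`,
`Y` Tychonoff. -/
theorem tych_generic {Y P : Type u} [TopologicalSpace Y] [T35Space Y] [TopologicalSpace P]
    [CompactSpace P] [T2Space P] (y0 : Y) (Θ : P → Cp Y → ℝ)
    (h1 : ∀ g, Continuous fun p => Θ p g) (h2 : ∀ p, Continuous (Θ p))
    (h0 : ∀ p, Θ p ⟨fun _ => 0, continuous_const⟩ = 0) (ε : ℝ) (hε : 0 < ε) (G0 : Set P)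
    (ho : IsOpen G0) (hne : G0.Nonempty) :
    ∃ (N : ℕ) (G : Set P) (c : Fin N → P → Y) (δ : ℝ), 0 < δ ∧ IsOpen G ∧ G.Nonempty ∧ G ⊆ G0 ∧
      (∀ l, ContinuousOn (c l) G) ∧
      ∀ p ∈ G, ∀ g : Cp Y, (∀ l, |g.1 (c l p)| < δ) → |Θ p g| ≤ ε := by
  classical
  have hemb : IsEmbedding (stoneCechUnit : Y → StoneCech Y) := isEmbedding_stoneCechUnit
  let res : Cp (StoneCech Y) → Cp Y := fun g => ⟨fun x => g.1 (stoneCechUnit x),
    g.2.comp hemb.continuous⟩
  have hres : Continuous res := by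
    refine Continuous.subtype_mk (continuous_pi fun x => ?_) _
    exact (continuous_apply _).comp continuous_subtype_val
  let g0 : Cp (StoneCech Y) := ⟨fun _ => 0, continuous_const⟩
  obtain ⟨N, G, c, k1, k2, k3, k4, k5, k6⟩ := generic2 (stoneCechUnit y0)
    (fun p g => -|Θ p (res g)|) (fun g => (h1 _).abs.neg) (fun p => ((h2 p).comp hres).abs.neg)
    g0 (-ε) G0 ho hne (fun p _ => by
      have : Θ p (res g0) = 0 := h0 p
      simp only [this, abs_zero, neg_zero]; linarith)
  have hY : ∀ l p, ∃ y : Y, p ∈ G → stoneCechUnit y = c l p := by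
    intro l p
    by_cases hp : p ∈ G
    · rcases k6 l with h | ⟨g, hg⟩
      · exact ⟨y0, fun _ => (h p).symm⟩
      · obtain ⟨e1, e2⟩ := hg p hp
        obtain ⟨S, hS⟩ := exact_sup' (fun g => -|Θ p g|) (h2 p).abs.neg (res g) (Iio (-ε))
          (Iio_mem_nhds e1)
        obtain ⟨y, -, hy⟩ := e2 (stoneCechUnit '' (S : Set Y)) (S.finite_toSet.image _)
          (fun g' hg' => hS (res g') fun x hx => hg' _ ⟨x, hx, rfl⟩)
        exact ⟨y, fun _ => hy⟩
    · exact ⟨y0, fun h => absurd h hp⟩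
  choose y hy using hY
  refine ⟨N, G, y, 1 / ((N : ℝ) + 1), by positivity, k1, k2, k3, fun l => ?_, fun p hp g hg => ?_⟩
  · rw [hemb.isInducing.continuousOn_iff]
    exact (k4 l).congr fun p hp => hy l p hp
  · by_contra hlt
    rw [not_le] at hlt
    obtain ⟨S, hS⟩ := exact_sup' (fun g => -|Θ p g|) (h2 p).abs.neg g (Iio (-ε))
      (Iio_mem_nhds (by linarith))
    obtain ⟨g', hg'⟩ := interp (stoneCechUnit '' ((S : Set Y) ∪ Set.range fun l => y l p))
      ((S.finite_toSet.union (Set.finite_range _)).image _)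
      (Function.extend stoneCechUnit g.1 0)
    have hg'' : ∀ x ∈ (S : Set Y) ∪ Set.range fun l => y l p, g'.1 (stoneCechUnit x) = g.1 x := by
      intro x hx
      rw [hg' _ ⟨x, hx, rfl⟩, hemb.injective.extend_apply]
    have e1 : -|Θ p (res g')| < -ε := hS (res g') fun x hx => hg'' x (Or.inl hx)
    have e2 := k5 p hp g' (by
      intro l
      rw [← hy l p hp, hg'' _ (Or.inr ⟨l, rfl⟩)]
      simpa [g0] using hg l)
    linarith

/-- The same, with supports that depend continuously on the value of a given map only. -/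
theorem tych_generic_fib {X Y P : Type u} [TopologicalSpace X] [T35Space X] [TopologicalSpace Y]
    [T2Space Y] [TopologicalSpace P] [CompactSpace P] [T2Space P] (x0 : X) (Θ : Y → Cp X → ℝ)
    (h1 : ∀ g, Continuous fun p => Θ p g) (h2 : ∀ p, Continuous (Θ p))
    (h0 : ∀ p, Θ p ⟨fun _ => 0, continuous_const⟩ = 0) (ε : ℝ) (hε : 0 < ε) (G0 : Set P)
    (ho : IsOpen G0) (hne : G0.Nonempty) (c : P → Y) (hc : ContinuousOn c G0) :
    ∃ (N : ℕ) (G : Set P) (d : Fin N → Y → X) (δ : ℝ), 0 < δ ∧ IsOpen G ∧ G.Nonempty ∧ G ⊆ G0 ∧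
      (∀ l, ContinuousOn (d l) (c '' G)) ∧
      ∀ p ∈ G, ∀ g : Cp X, (∀ l, |g.1 (d l (c p))| < δ) → |Θ (c p) g| ≤ ε := by
  classical
  obtain ⟨p0, hp0⟩ := hne
  obtain ⟨V, hV1, hV2, hV3⟩ : ∃ V : Set P, IsOpen V ∧ p0 ∈ V ∧ closure V ⊆ G0 := by
    obtain ⟨t, ht1, ht2, ht3⟩ := exists_mem_nhds_isClosed_subset (ho.mem_nhds hp0)
    exact ⟨interior t, isOpen_interior, mem_interior_iff_mem_nhds.mpr ht1,
      (closure_minimal interior_subset ht2).trans ht3⟩
  have hQ : IsCompact (c '' closure V) :=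
    isClosed_closure.isCompact.image_of_continuousOn (hc.mono hV3)
  have : CompactSpace (c '' closure V : Set Y) := isCompact_iff_compactSpace.mp hQ
  obtain ⟨N, G, d, δ, k0, k1, k2, -, k4, k5⟩ := tych_generic (P := (c '' closure V : Set Y)) x0
    (fun q g => Θ q.1 g) (fun g => (h1 g).comp continuous_subtype_val) (fun q => h2 q.1)
    (fun q => h0 q.1) ε hε univ isOpen_univ ⟨⟨c p0, p0, subset_closure hV2, rfl⟩, mem_univ _⟩
  obtain ⟨W, hW, rfl⟩ := isOpen_induced_iff.mp k1
  have hVG : V ⊆ G0 := subset_closure.trans hV3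
  let d' : Fin N → Y → X := fun l y => if hy : y ∈ c '' closure V then d l ⟨y, hy⟩ else x0
  refine ⟨N, V ∩ c ⁻¹' W, d', δ, k0, (hc.mono hVG).isOpen_inter_preimage hV1 hW, ?_,
    inter_subset_left.trans hVG, fun l => ?_, fun p hp g hg => ?_⟩
  · obtain ⟨⟨q, p, hp, rfl⟩, hq⟩ := k2
    have e1 : c ⁻¹' W ∈ 𝓝 p :=
      (hc.continuousAt (ho.mem_nhds (hV3 hp))).preimage_mem_nhds (hW.mem_nhds hq)
    obtain ⟨z, hz1, hz2⟩ := mem_closure_iff_nhds.mp hp _ e1
    exact ⟨z, hz2, hz1⟩
  · rw [continuousOn_iff_continuous_domRestrict]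
    have hsub : c '' (V ∩ c ⁻¹' W) ⊆ c '' closure V :=
      image_mono (inter_subset_left.trans subset_closure)
    have e1 : Continuous fun q : (c '' (V ∩ c ⁻¹' W) : Set Y) => d l ⟨q.1, hsub q.2⟩ := by
      refine (k4 l).comp_continuous (continuous_subtype_val.subtype_mk _) ?_
      rintro ⟨q, p, hp, rfl⟩
      exact hp.2
    refine e1.congr fun q => ?_
    simp only [d', domRestrict_apply, dif_pos (hsub q.2)]
  · have hm : c p ∈ c '' closure V := ⟨p, subset_closure hp.1, rfl⟩
    refine k5 ⟨c p, hm⟩ hp.2 g fun l => ?_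
    have := hg l
    simpa only [d', dif_pos hm] using this

theorem exists_open_eq {X P ι : Type*} [TopologicalSpace X] [T2Space X] [TopologicalSpace P]
    (u : ι → P → X) (v : P → X) (hv : Continuous v) (s : Finset ι) :
    ∀ G : Set P, IsOpen G → G.Nonempty → (∀ i, ContinuousOn (u i) G) →
      (∀ p ∈ G, ∃ i ∈ s, u i p = v p) →
      ∃ (i : ι) (G' : Set P), IsOpen G' ∧ G'.Nonempty ∧ G' ⊆ G ∧ ∀ p ∈ G', u i p = v p := by
  classical
  induction s using Finset.induction_on with
  | empty =>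
    intro G _ hne _ h
    obtain ⟨p, hp⟩ := hne
    obtain ⟨i, hi, -⟩ := h p hp
    simp at hi
  | insert i s _ ih =>
    intro G ho hne hu h
    by_cases hall : ∀ p ∈ G, u i p = v p
    · exact ⟨i, G, ho, hne, Subset.rfl, hall⟩
    · push Not at hall
      obtain ⟨p0, hp0, hp1⟩ := hall
      have e1 : IsOpen (G ∩ (fun p => (u i p, v p)) ⁻¹' (diagonal X)ᶜ) :=
        ((hu i).prodMk hv.continuousOn).isOpen_inter_preimage ho isClosed_diagonal.isOpen_compl
      obtain ⟨j, G', a1, a2, a3, a4⟩ := ih _ e1 ⟨p0, hp0, hp1⟩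
        (fun j => (hu j).mono inter_subset_left) (by
          intro p hp
          obtain ⟨j, hj, hj'⟩ := h p hp.1
          rcases Finset.mem_insert.mp hj with rfl | hj
          · exact absurd hj' hp.2
          · exact ⟨j, hj, hj'⟩)
      exact ⟨j, G', a1, a2, a3.trans inter_subset_left, a4⟩

/-- translation in `C_p` -/
def shift {Y : Type u} [TopologicalSpace Y] (a g : Cp Y) : Cp Y :=
  ⟨fun y => g.1 y + a.1 y, g.2.add a.2⟩

theorem shift_cont {Y : Type u} [TopologicalSpace Y] (a : Cp Y) : Continuous (shift a) := by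
  refine Continuous.subtype_mk (continuous_pi fun x => ?_) _
  exact ((continuous_apply _).comp continuous_subtype_val).add continuous_const

/-- Local embedding theorem. If `C_p(X)` is homeomorphic to a retract of `C_p(Y)`, every
continuous map `e` of a nonempty compact space into `X` factors, on a nonempty open set, through
a continuous map into `Y`. -/
theorem local_emb {X Y P : Type u} [TopologicalSpace X] [T35Space X] [TopologicalSpace Y]
    [T35Space Y] [TopologicalSpace P] [CompactSpace P] [T2Space P]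
    (h : Cp X → Cp Y) (k : Cp Y → Cp X) (hh : Continuous h) (hk : Continuous k)
    (hkh : ∀ f, k (h f) = f) (e : P → X) (he : Continuous e) (G0 : Set P) (ho : IsOpen G0)
    (hne : G0.Nonempty) :
    ∃ (G : Set P) (c : P → Y) (d : Y → X), IsOpen G ∧ G.Nonempty ∧ G ⊆ G0 ∧ ContinuousOn c G ∧
      ContinuousOn d (c '' G) ∧ ∀ p ∈ G, d (c p) = e p := by
  classical
  obtain ⟨p0, hp0⟩ := hne
  let z : Cp X := ⟨fun _ => 0, continuous_const⟩
  obtain ⟨y0⟩ : Nonempty Y := by
    by_contra hY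
    rw [not_nonempty_iff] at hY
    have e1 : h z = h ⟨fun _ => 1, continuous_const⟩ := Subtype.ext (funext fun y => hY.elim y)
    have e2 := congrArg (fun g => (k g).1 (e p0)) e1
    simp only [hkh, z] at e2
    exact zero_ne_one e2
  have ev : ∀ {Z : Type u} [TopologicalSpace Z] (x : Z), Continuous fun g : Cp Z => g.1 x :=
    fun x => (continuous_apply x).comp continuous_subtype_val
  obtain ⟨N, G, c, δ, k0, k1, k2, k3, k4, k5⟩ := tych_generic y0
    (fun (p : P) g => (k (shift (h z) g)).1 (e p)) (fun g => (k _).2.comp he)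
    (fun p => (ev _).comp (hk.comp (shift_cont _))) (fun p => by
      have : shift (h z) ⟨fun _ => 0, continuous_const⟩ = h z :=
        Subtype.ext (funext fun y => zero_add _)
      rw [this, hkh]) 1 one_pos G0 ho ⟨p0, hp0⟩
  have key : ∀ s : Finset (Fin N), ∃ (G' : Set P) (M : Fin N → ℕ)
      (d : ∀ l, Fin (M l) → Y → X), IsOpen G' ∧ G'.Nonempty ∧ G' ⊆ G ∧
      (∀ l j, ContinuousOn (d l j) (c l '' G')) ∧
      ∀ l ∈ s, ∀ p ∈ G', ∀ f : Cp X, (∀ j, f.1 (d l j (c l p)) = 0) →
        |(h f).1 (c l p) - (h z).1 (c l p)| < δ := by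
    intro s
    induction s using Finset.induction_on with
    | empty =>
      exact ⟨G, fun _ => 0, fun _ j => j.elim0, k1, k2, Subset.rfl, fun _ j => j.elim0, by simp⟩
    | insert i s hi ih =>
      obtain ⟨G', M, d, a1, a2, a3, a4, a5⟩ := ih
      obtain ⟨M', G'', d', δ', b0, b1, b2, b3, b4, b5⟩ := tych_generic_fib (e p0)
        (fun (y : Y) f => (h f).1 y - (h z).1 y) (fun f => (h f).2.sub (h z).2)
        (fun y => ((ev y).comp hh).sub continuous_const) (fun y => sub_self _) (δ / 2)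
        (half_pos k0) G' a1 a2 (c i) ((k4 i).mono a3)
      let T : ∀ l : Fin N, (Σ m : ℕ, Fin m → Y → X) := fun l => if l = i then ⟨M', d'⟩ else ⟨M l, d l⟩
      refine ⟨G'', fun l => (T l).1, fun l => (T l).2, b1, b2, b3.trans a3, fun l => ?_,
        fun l hl p hp f => ?_⟩
      · beta_reduce
        by_cases hl : l = i
        · have : T l = ⟨M', d'⟩ := if_pos hl
          rw [this, hl]
          exact b4
        · have : T l = ⟨M l, d l⟩ := if_neg hl
          rw [this]
          exact fun j => (a4 l j).mono (image_mono b3)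
      · beta_reduce
        by_cases hli : l = i
        · have : T l = ⟨M', d'⟩ := if_pos hli
          rw [this, hli]
          intro hf
          have := b5 p hp f fun j => by
            have := hf j
            simp only at this
            rw [this, abs_zero]; exact b0
          linarith
        · have : T l = ⟨M l, d l⟩ := if_neg hli
          rw [this]
          exact a5 l ((Finset.mem_insert.mp hl).resolve_left hli) p (b3 hp) f
  obtain ⟨G', M, d, a1, a2, a3, a4, a5⟩ := key Finset.univ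
  have hcov : ∀ p ∈ G', ∃ i ∈ (Finset.univ : Finset (Σ l, Fin (M l))),
      d i.1 i.2 (c i.1 p) = e p := by
    intro p hp
    by_contra hcon
    push Not at hcon
    have hfin : (range fun i : (Σ l, Fin (M l)) => d i.1 i.2 (c i.1 p)).Finite := finite_range _
    obtain ⟨φ, hφ, hφ0, hφ1⟩ := CompletelyRegularSpace.completely_regular (e p) _ hfin.isClosed
      (by rintro ⟨i, hi⟩; exact hcon i (Finset.mem_univ _) hi)
    let f : Cp X := ⟨fun x => 2 * (1 - (φ x : ℝ)),
      continuous_const.mul (continuous_const.sub (continuous_subtype_val.comp hφ))⟩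
    let g : Cp Y := ⟨fun y => (h f).1 y - (h z).1 y, (h f).2.sub (h z).2⟩
    have e1 := k5 p (a3 hp) g fun l => a5 l (Finset.mem_univ _) p hp f fun j => by
      have : φ (d l j (c l p)) = 1 := hφ1 ⟨⟨l, j⟩, rfl⟩
      simp [f, this]
    have e2 : shift (h z) g = h f := Subtype.ext (funext fun y => sub_add_cancel _ _)
    rw [e2, hkh] at e1
    simp only [f, hφ0] at e1
    norm_num at e1
  obtain ⟨i, G'', b1, b2, b3, b4⟩ := exists_open_eq
    (fun (i : Σ l, Fin (M l)) p => d i.1 i.2 (c i.1 p)) e he Finset.univ G' a1 a2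
    (fun i => (a4 i.1 i.2).comp ((k4 i.1).mono a3) (mapsTo_image _ _)) hcov
  exact ⟨G'', c i.1, d i.1 i.2, b1, b2, (b3.trans a3).trans k3, (k4 _).mono (b3.trans a3),
    (a4 _ _).mono (image_mono b3), b4⟩

end Pool.Agent.H421Z.TExt
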