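import Pool.Agent.H421Z.TExt.Gen2

set_option autoImplicit false

namespace Pool.Agent.H421Z.TExt

open Filter Topology Pool.Agent.H421Z.TEmb

universe v w

theorem exact_sup {X : Type} [TopologicalSpace X] (ψ : Cp X → ℝ) (h2 : Continuous ψ) (f : Cp X)
    (V : Set ℝ) (hV : V ∈ 𝓝 (ψ f)) :
    ∃ S : Finset X, ∀ g : Cp X, (∀ x ∈ S, g.1 x = f.1 x) → ψ g ∈ V := by
  have hev : ∀ᶠ g in 𝓝 f, ψ g ∈ V := h2.continuousAt hV
  rw [nhds_induced, Filter.eventually_comap, nhds_pi] at hev
  obtain ⟨I, t, ht, hsub⟩ := Filter.mem_pi'.mp hev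
  refine ⟨I, fun g hg => hsub (fun x hx => ?_) g rfl⟩
  rw [hg x hx]
  exact mem_of_mem_nhds (ht x)

theorem const_of_countable {Y : Type} [TopologicalSpace Y] [CompactSpace Y] [T2Space Y]
    (c : unitInterval → Y) (hc : Continuous c) (D : Set Y) (hD : D.Countable) (h : ∀ s, c s ∈ D) :
    c 1 = c 0 := by
  by_contra hne
  obtain ⟨f, hf0, hf1, -⟩ := exists_continuous_zero_one_of_isClosed
    (isClosed_singleton (x := c 1)) (isClosed_singleton (x := c 0)) (Set.disjoint_singleton.mpr hne)
  have h1 : (Set.range fun s => f (c s)).Countable :=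
    (hD.image f).mono (by rintro _ ⟨s, rfl⟩; exact ⟨c s, h s, rfl⟩)
  have h2 : IsPreconnected (Set.range fun s => f (c s)) :=
    isPreconnected_range (f.continuous.comp hc)
  have h3 := h1.isTotallyDisconnected _ Set.Subset.rfl h2 ⟨1, rfl⟩ ⟨0, rfl⟩
  have a0 : f (c 1) = 0 := hf0 (Set.mem_singleton _)
  have a1 : f (c 0) = 1 := hf1 (Set.mem_singleton _)
  simp only [a0, a1] at h3
  exact zero_ne_one h3

/-- A sequence of continuous functionals on `C_p(X)` all of whose absolutely convergent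
combinations are continuous is, from some index on, bounded on one neighbourhood in a weak sense. -/
theorem common_nhds {X : Type} [TopologicalSpace X] [T35Space X] [Nonempty X]
    (θ : ℕ → Cp X → ℝ) (hθ : ∀ n, Continuous (θ n)) (hb : ∀ f, ∃ C, ∀ n, |θ n f| ≤ C)
    (hs : ∀ t : ℕ → unitInterval, Continuous fun f => ∑' n, (1 / 2 : ℝ) ^ n * t n * θ n f)
    (f0 : Cp X) (h00 : ∀ x, f0.1 x = 0) (h0 : ∀ n, θ n f0 = 0) :
    ∃ (U : Set (Cp X)) (A : Finset ℕ) (a : ℕ → ℝ), U ∈ 𝓝 f0 ∧
      (∀ f ∈ U, -1 ≤ ∑ k ∈ A, a k * θ k f) ∧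
      ∀ n ∉ A, ∀ f ∈ U, -1 ≤ ∑ k ∈ A, a k * θ k f + (1 / 2 : ℝ) ^ n * θ n f := by
  classical
  obtain ⟨x0⟩ : Nonempty X := inferInstance
  have hemb : IsEmbedding (stoneCechUnit : X → StoneCech X) := isEmbedding_stoneCechUnit
  let res : Cp (StoneCech X) → Cp X := fun g => ⟨fun x => g.1 (stoneCechUnit x),
    g.2.comp hemb.continuous⟩
  have hres : Continuous res := by
    refine Continuous.subtype_mk (continuous_pi fun x => ?_) _
    exact (continuous_apply _).comp continuous_subtype_val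
  let ψ : (ℕ → unitInterval) → Cp X → ℝ := fun t f => ∑' n, (1 / 2 : ℝ) ^ n * t n * θ n f
  have hψ1 : ∀ f, Continuous fun t => ψ t f := by
    intro f
    obtain ⟨C, hC⟩ := hb f
    refine continuous_tsum (u := fun n => (1 / 2 : ℝ) ^ n * C) (fun n => ?_)
      (summable_geometric_two.mul_right C) (fun n t => ?_)
    · exact (continuous_const.mul (continuous_subtype_val.comp (continuous_apply n))).mul
        continuous_const
    · rw [Real.norm_eq_abs, abs_mul, abs_mul, abs_of_nonneg (t n).2.1,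
        abs_of_nonneg (by positivity : (0 : ℝ) ≤ (1 / 2) ^ n), mul_assoc]
      refine mul_le_mul_of_nonneg_left ?_ (by positivity)
      have := hC n
      have h1 := (t n).2.2
      have h2 := (t n).2.1
      have h3 := abs_nonneg (θ n f)
      nlinarith
  have hfin : ∀ (A : Finset ℕ) (t : ℕ → unitInterval), (∀ n ∉ A, t n = 0) → ∀ f,
      ψ t f = ∑ n ∈ A, (1 / 2 : ℝ) ^ n * t n * θ n f := by
    intro A t ht f
    refine tsum_eq_sum fun n hn => ?_
    rw [ht n hn]; simp
  let g0 : Cp (StoneCech X) := ⟨fun _ => 0, continuous_const⟩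
  have hg0 : res g0 = f0 := Subtype.ext (funext fun x => (h00 x).symm)
  obtain ⟨N, G, c, k1, k2, -, k4, k5, k6⟩ := generic2 (stoneCechUnit x0)
    (fun t g => ψ t (res g)) (fun g => hψ1 _) (fun t => (hs t).comp hres) g0 (-1) Set.univ
    isOpen_univ Set.univ_nonempty (fun t _ => by
      simp only [hg0, ψ, h0, mul_zero, tsum_zero]; norm_num)
  obtain ⟨z, hz⟩ := k2
  have hnb := k1.mem_nhds hz
  rw [nhds_pi] at hnb
  obtain ⟨A, s, hs1, hsub⟩ := Filter.mem_pi'.mp hnb
  let t0 : ℕ → unitInterval := fun n => if n ∈ A then z n else 0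
  have hG : ∀ t : ℕ → unitInterval, (∀ n ∈ A, t n = z n) → t ∈ G := by
    intro t ht
    refine hsub fun n hn => ?_
    rw [ht n hn]
    exact mem_of_mem_nhds (hs1 n)
  have hD : ∀ l, ∃ D : Set X, D.Countable ∧ ∀ (B : Finset ℕ) (t : ℕ → unitInterval), t ∈ G →
      (∀ n ∉ B, t n = 0) → c l t ∈ stoneCechUnit '' D := by
    intro l
    rcases k6 l with h | ⟨g, hg⟩
    · exact ⟨{x0}, Set.countable_singleton _, fun B t _ _ => ⟨x0, rfl, (h t).symm⟩⟩
    · have hS := fun n k : ℕ => exact_sup (θ n) (hθ n) (res g)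
        (Metric.ball (θ n (res g)) (1 / ((k : ℝ) + 1))) (Metric.ball_mem_nhds _ (by positivity))
      choose S hS using hS
      refine ⟨⋃ n, ⋃ k, (S n k : Set X), Set.countable_iUnion fun n => Set.countable_iUnion
        fun k => (S n k).countable_toSet, fun B t ht htB => ?_⟩
      obtain ⟨e1, e2⟩ := hg t ht
      have hgap : 0 < (-1 - ψ t (res g)) / (B.card + 1) := div_pos (by linarith) (by positivity)
      obtain ⟨k, hk⟩ := exists_nat_one_div_lt hgap
      rw [lt_div_iff₀ (by positivity)] at hk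
      have := e2 (stoneCechUnit '' (B.biUnion fun n => S n k : Finset X))
        ((Finset.finite_toSet _).image _) (by
          intro g' hg'
          have e3 : ∀ n ∈ B, (1 / 2 : ℝ) ^ n * t n * θ n (res g') ≤
              (1 / 2 : ℝ) ^ n * t n * θ n (res g) + 1 / ((k : ℝ) + 1) := by
            intro n hn
            have e4 := hS n k (res g') fun x hx => hg' _
              ⟨x, Finset.mem_coe.mpr (Finset.mem_biUnion.mpr ⟨n, hn, hx⟩), rfl⟩
            rw [Metric.mem_ball, Real.dist_eq, abs_lt] at e4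
            have e5 : (0 : ℝ) ≤ (1 / 2) ^ n * t n := mul_nonneg (by positivity) (t n).2.1
            have e6 : (1 / 2 : ℝ) ^ n * t n ≤ 1 :=
              mul_le_one₀ (pow_le_one₀ (by norm_num) (by norm_num)) (t n).2.1 (t n).2.2
            have e7 : (0 : ℝ) < 1 / ((k : ℝ) + 1) := by positivity
            nlinarith
          have e8 := Finset.sum_le_sum e3
          rw [Finset.sum_add_distrib, Finset.sum_const, nsmul_eq_mul, ← hfin B t htB,
            ← hfin B t htB] at e8
          have e7 : (0 : ℝ) < 1 / ((k : ℝ) + 1) := by positivity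
          show ψ t (res g') < -1
          nlinarith)
      obtain ⟨x, hx, hx'⟩ := this
      obtain ⟨n, -, hn⟩ := Finset.mem_biUnion.mp (Finset.mem_coe.mp hx)
      exact ⟨x, Set.mem_iUnion.mpr ⟨n, Set.mem_iUnion.mpr ⟨k, hn⟩⟩, hx'⟩
  choose D hD1 hD2 using hD
  have ht0G : t0 ∈ G := hG t0 fun n hn => if_pos hn
  have ht0A : ∀ n ∉ A, t0 n = 0 := fun n hn => if_neg hn
  have hup : ∀ n ∉ A, ∀ r, Function.update t0 n r ∈ G := by
    intro n hn r
    refine hG _ fun m hm => ?_
    rw [Function.update_of_ne (by rintro rfl; exact hn hm)]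
    exact if_pos hm
  have hup2 : ∀ n r, ∀ m ∉ insert n A, Function.update t0 n r m = 0 := by
    intro n r m hm
    rw [Finset.mem_insert, not_or] at hm
    rw [Function.update_of_ne hm.1]
    exact ht0A m hm.2
  have hconst : ∀ l, ∀ n ∉ A, c l (Function.update t0 n 1) = c l t0 := by
    intro l n hn
    have e1 : Continuous fun r : unitInterval => c l (Function.update t0 n r) :=
      (k4 l).comp_continuous (continuous_const.update n continuous_id) (hup n hn)
    have e2 := const_of_countable _ e1 _ ((hD1 l).image stoneCechUnit)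
      (fun r => hD2 l (insert n A) _ (hup n hn r) (hup2 n r))
    have e3 : Function.update t0 n 0 = t0 := by
      rw [Function.update_eq_self_iff, ht0A n hn]
    simp only [e3] at e2
    exact e2
  have hy : ∀ l, ∃ y : X, stoneCechUnit y = c l t0 := fun l => by
    obtain ⟨y, -, hy⟩ := hD2 l A t0 ht0G ht0A
    exact ⟨y, hy⟩
  choose y hy using hy
  let U : Set (Cp X) := {f | ∀ l, |f.1 (y l)| < 1 / ((N : ℝ) + 1)}
  have hU : U ∈ 𝓝 f0 := by
    have : ∀ᶠ f in 𝓝 f0, ∀ l, |f.1 (y l)| < 1 / ((N : ℝ) + 1) := by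
      rw [Filter.eventually_all]
      intro l
      have e1 : Continuous fun f : Cp X => |f.1 (y l)| :=
        ((continuous_apply _).comp continuous_subtype_val).abs
      refine e1.continuousAt.eventually_lt continuousAt_const ?_
      rw [h00, abs_zero]; positivity
    exact this
  have hmain : ∀ t ∈ G, (∀ l, c l t = c l t0) → ∀ f ∈ U, -1 ≤ ψ t f := by
    intro t ht htc f hf
    by_contra hlt
    rw [not_le] at hlt
    obtain ⟨S, hS⟩ := exact_sup (ψ t) (hs t) f (Set.Iio (-1)) (Iio_mem_nhds hlt)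
    obtain ⟨g, hg⟩ := interp (stoneCechUnit '' ((S : Set X) ∪ Set.range y))
      ((S.finite_toSet.union (Set.finite_range y)).image _)
      (Function.extend stoneCechUnit f.1 0)
    have hg' : ∀ x ∈ (S : Set X) ∪ Set.range y, g.1 (stoneCechUnit x) = f.1 x := by
      intro x hx
      rw [hg _ ⟨x, hx, rfl⟩, hemb.injective.extend_apply]
    have e1 : ψ t (res g) < -1 := hS (res g) fun x hx => hg' x (Or.inl hx)
    have e2 := k5 t ht g (by
      intro l
      rw [htc l, ← hy l, hg' _ (Or.inr ⟨l, rfl⟩)]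
      simpa [g0] using hf l)
    linarith
  refine ⟨U, A, fun k => (1 / 2 : ℝ) ^ k * t0 k, hU, fun f hf => ?_, fun n hn f hf => ?_⟩
  · rw [← hfin A t0 ht0A]
    exact hmain t0 ht0G (fun _ => rfl) f hf
  · have e1 := hmain _ (hup n hn 1) (fun l => hconst l n hn) f hf
    rw [hfin (insert n A) _ (hup2 n 1), Finset.sum_insert hn, Function.update_self] at e1
    have e2 : ∑ k ∈ A, (1 / 2 : ℝ) ^ k * (Function.update t0 n 1 k : unitInterval) * θ k f =
        ∑ k ∈ A, (1 / 2 : ℝ) ^ k * t0 k * θ k f := by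
      refine Finset.sum_congr rfl fun k hk => ?_
      rw [Function.update_of_ne (by rintro rfl; exact hn hk)]
    rw [e2] at e1
    simp only [Set.Icc.coe_one, mul_one] at e1
    linarith

theorem no_homeo {X : Type} [TopologicalSpace X] [T35Space X] {E : Type v} [AddCommGroup E]
    [Module ℝ E] [TopologicalSpace E] {Λ : Type w} (ev : Λ → E →ₗ[ℝ] ℝ)
    (hind : IsInducing fun (e : E) (ν : Λ) => ev ν e) (lam : ℕ → Λ)
    (hli : LinearIndependent ℝ fun n => ev (lam n)) (hb : ∀ e, ∃ C, ∀ n, |ev (lam n) e| ≤ C)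
    (hs : ∀ t : ℕ → unitInterval, ∃ ν, ∀ e, ev ν e = ∑' n, (1 / 2 : ℝ) ^ n * t n * ev (lam n) e) :
    IsEmpty (Cp X ≃ₜ E) := by
  classical
  refine ⟨fun h => ?_⟩
  have hev : ∀ ν, Continuous (ev ν) := fun ν => (continuous_apply ν).comp hind.continuous
  rcases isEmpty_or_nonempty X with hX | hX
  · have : Subsingleton E := h.symm.injective.subsingleton
    refine hli.ne_zero 0 ?_
    ext e
    rw [Subsingleton.elim e 0, map_zero, map_zero]
  let f0 : Cp X := ⟨fun _ => 0, continuous_const⟩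
  have hc : ∀ ν, Continuous fun f : Cp X => ev ν (h f - h f0) := by
    intro ν
    simp only [map_sub]
    exact ((hev ν).comp h.continuous).sub continuous_const
  obtain ⟨U, A, a, hU, h1, h2⟩ := common_nhds (fun n f => ev (lam n) (h f - h f0))
    (fun n => hc _) (fun f => hb _) (fun t => by
      obtain ⟨ν, hν⟩ := hs t
      simp only [← hν]
      exact hc ν) f0 (fun _ => rfl) (fun n => by simp)
  have hV : h.symm ⁻¹' U ∈ 𝓝 (h f0) := h.symm.continuous.continuousAt (by simpa using hU)
  rw [hind.nhds_eq_comap, mem_comap] at hV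
  obtain ⟨W, hW, hWV⟩ := hV
  rw [nhds_pi] at hW
  obtain ⟨F, s, hs1, hsub⟩ := Filter.mem_pi'.mp hW
  have hker : ∀ e : E, (∀ ν ∈ F, ev ν e = 0) → h.symm (h f0 + e) ∈ U := by
    intro e he
    refine hWV (hsub fun ν hν => ?_)
    show ev ν (h f0 + e) ∈ s ν
    rw [map_add, he ν hν, add_zero]
    exact mem_of_mem_nhds (hs1 ν)
  have hz : ∀ u : ℝ, (∀ r : ℝ, -1 ≤ r * u) → u = 0 := by
    intro u hu
    by_contra hne
    have := hu (-2 / u)
    rw [div_mul_cancel₀ _ hne] at this
    linarith
  have hzero : ∀ n ∉ A, ∀ e : E, (∀ ν ∈ F, ev ν e = 0) → ev (lam n) e = 0 := by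
    intro n hn e he
    have hr : ∀ r : ℝ, ∀ ν ∈ F, ev ν (r • e) = 0 := fun r ν hν => by
      rw [map_smul, he ν hν, smul_zero]
    have e1 : ∑ k ∈ A, a k * ev (lam k) e = 0 := by
      refine hz _ fun r => ?_
      have := h1 _ (hker _ (hr r))
      simp only [Homeomorph.apply_symm_apply, add_sub_cancel_left, map_smul, smul_eq_mul] at this
      rw [Finset.mul_sum]
      refine this.trans (le_of_eq (Finset.sum_congr rfl fun k _ => by ring))
    have e2 : ∑ k ∈ A, a k * ev (lam k) e + (1 / 2 : ℝ) ^ n * ev (lam n) e = 0 := by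
      refine hz _ fun r => ?_
      have := h2 n hn _ (hker _ (hr r))
      simp only [Homeomorph.apply_symm_apply, add_sub_cancel_left, map_smul, smul_eq_mul] at this
      rw [mul_add, Finset.mul_sum]
      refine this.trans (le_of_eq ?_)
      congr 1
      · exact Finset.sum_congr rfl fun k _ => by ring
      · ring
    rw [e1, zero_add] at e2
    exact (mul_eq_zero.mp e2).resolve_left (by positivity)
  have hspan : ∀ n ∉ A, ev (lam n) ∈ Submodule.span ℝ (Set.range fun ν : F => ev ν) := by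
    intro n hn
    refine mem_span_of_iInf_ker_le_ker fun e he => ?_
    rw [Submodule.mem_iInf] at he
    exact hzero n hn e fun ν hν => he ⟨ν, hν⟩
  have hli' := hli.comp (Subtype.val : {n // n ∉ A} → ℕ) Subtype.val_injective
  have hfin : Finite {n // n ∉ A} :=
    hli'.finite_of_le_span_finite _ (Set.range fun ν : F => ev ν) (by
      rintro _ ⟨n, rfl⟩
      exact hspan n.1 n.2)
  have : Infinite {n // n ∉ A} := (A.finite_toSet.infinite_compl).to_subtype
  exact not_finite {n // n ∉ A}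

end Pool.Agent.H421Z.TExt
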