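import Pool.Agent.H421Z.TExt.Weak

set_option autoImplicit false

namespace Pool.Agent.H421Z.TExt

open Filter Topology Pool.Agent.H421Z.TEmb

universe v

/-- The weak topology of a normed space. -/
@[reducible] def weakTop (F : Type v) [NormedAddCommGroup F] [NormedSpace ℝ F] : TopologicalSpace F :=
  TopologicalSpace.induced (fun (e : F) (ν : F →L[ℝ] ℝ) => ν e) Pi.topologicalSpace

theorem no_homeo_normed {X : Type} [TopologicalSpace X] [T35Space X] {F : Type v}
    [NormedAddCommGroup F] [NormedSpace ℝ F] (lam : ℕ → F →L[ℝ] ℝ)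
    (hli : LinearIndependent ℝ fun n => (lam n : F →ₗ[ℝ] ℝ)) (hb : ∀ n e, |lam n e| ≤ ‖e‖) :
    IsEmpty (@Homeomorph (Cp X) F _ (weakTop F)) := by
  refine @no_homeo X _ _ F _ _ (weakTop F) (F →L[ℝ] ℝ) (fun ν => (ν : F →ₗ[ℝ] ℝ))
    (@IsInducing.mk F _ (weakTop F) _ _ rfl) lam hli
    (fun e => ⟨‖e‖, fun n => hb n e⟩) (fun t => ?_)
  have hn : ∀ n, ‖((1 / 2 : ℝ) ^ n * t n) • lam n‖ ≤ (1 / 2 : ℝ) ^ n := by
    intro n
    have h1 : ‖lam n‖ ≤ 1 := (lam n).opNorm_le_bound zero_le_one fun e => by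
      rw [one_mul]; exact hb n e
    rw [norm_smul, Real.norm_eq_abs, abs_of_nonneg (mul_nonneg (by positivity) (t n).2.1),
      mul_assoc]
    exact mul_le_of_le_one_right (by positivity) (mul_le_one₀ (t n).2.2 (norm_nonneg _) h1)
  have hsum : Summable fun n => ((1 / 2 : ℝ) ^ n * t n) • lam n :=
    Summable.of_norm_bounded summable_geometric_two hn
  refine ⟨∑' n, ((1 / 2 : ℝ) ^ n * t n) • lam n, fun e => ?_⟩
  have := (ContinuousLinearMap.apply ℝ ℝ e).map_tsum hsum
  simpa using this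

theorem no_homeo_CK {X : Type} [TopologicalSpace X] [T35Space X] (K : Type) [TopologicalSpace K]
    [CompactSpace K] [T2Space K] [Infinite K] :
    IsEmpty (@Homeomorph (Cp X) C(K, ℝ) _ (weakTop C(K, ℝ))) := by
  classical
  let x := Infinite.natEmbedding K
  refine no_homeo_normed (fun n => ContinuousMap.evalCLM ℝ (x n)) ?_
    (fun n e => e.norm_coe_le_norm (x n))
  rw [linearIndependent_iff']
  intro s g hs i hi
  obtain ⟨f, hf⟩ := interp (x '' (s : Set ℕ)) (s.finite_toSet.image _)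
    (fun z => if z = x i then 1 else 0)
  have h1 := LinearMap.congr_fun hs ⟨f.1, f.2⟩
  rw [LinearMap.sum_apply, Finset.sum_eq_single i] at h1
  · have h2 : f.1 (x i) = 1 := by rw [hf _ ⟨i, hi, rfl⟩, if_pos rfl]
    have h3 : g i * f.1 (x i) = 0 := h1
    rwa [h2, mul_one] at h3
  · intro j hj hji
    have h2 : f.1 (x j) = 0 := by
      rw [hf _ ⟨j, hj, rfl⟩, if_neg (fun h => hji (x.injective h))]
    show g j * f.1 (x j) = 0
    rw [h2, mul_zero]
  · intro h; exact absurd hi h

theorem no_homeo_weak {X : Type} [TopologicalSpace X] [T35Space X] (K : Type) [TopologicalSpace K]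
    [CompactSpace K] [T2Space K] [Infinite K] : IsEmpty (Cp X ≃ₜ WeakSpace ℝ C(K, ℝ)) :=
  no_homeo_CK K

section free

variable {N : Type} [MetricSpace N]

/-- Lipschitz functions vanishing at the base point. -/
abbrev Lip0 (n0 : N) : Type := {f : N → ℝ // f n0 = 0 ∧ ∃ K : NNReal, LipschitzWith K f}

/-- The free space. -/
def Free (n0 : N) : Submodule ℝ (Lip0 n0 → ℝ) where
  carrier := {Φ | ∀ ε : ℝ, 0 < ε → ∃ c : N →₀ ℝ, ∀ f : Lip0 n0, ∀ K : NNReal,
    LipschitzWith K f.1 → |Φ f - c.sum (fun x a => a * f.1 x)| ≤ ε * (K : ℝ)}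
  zero_mem' := fun ε hε => ⟨0, fun f K _ => by simp; positivity⟩
  add_mem' := by
    intro Φ Ψ hΦ hΨ ε hε
    obtain ⟨c, hc⟩ := hΦ (ε / 2) (by positivity)
    obtain ⟨d, hd⟩ := hΨ (ε / 2) (by positivity)
    refine ⟨c + d, fun f K hK => ?_⟩
    rw [Finsupp.sum_add_index' (fun _ => zero_mul _) (fun _ _ _ => add_mul _ _ _), Pi.add_apply]
    have h1 := abs_le.mp (hc f K hK)
    have h2 := abs_le.mp (hd f K hK)
    rw [abs_le]
    constructor <;> linarith [h1.1, h1.2, h2.1, h2.2]
  smul_mem' := by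
    intro r Φ hΦ ε hε
    obtain ⟨c, hc⟩ := hΦ (ε / (|r| + 1)) (by positivity)
    refine ⟨r • c, fun f K hK => ?_⟩
    rw [Finsupp.sum_smul_index' (fun _ => zero_mul _), Pi.smul_apply, smul_eq_mul]
    have h1 : (c.sum fun x a => (r • a) * f.1 x) = r * c.sum fun x a => a * f.1 x := by
      rw [Finsupp.mul_sum]
      exact Finsupp.sum_congr fun x _ => by rw [smul_eq_mul, mul_assoc]
    rw [h1, ← mul_sub, abs_mul]
    have h2 := hc f K hK
    have h3 : |r| * (ε / (|r| + 1) * K) ≤ ε * K := by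
      rw [← mul_assoc]
      refine mul_le_mul_of_nonneg_right ?_ K.2
      rw [mul_div_assoc', div_le_iff₀ (by positivity)]
      nlinarith [abs_nonneg r]
    exact (mul_le_mul_of_nonneg_left h2 (abs_nonneg r)).trans h3

theorem lip_bound {n0 : N} (f : N → ℝ) (h0 : f n0 = 0) (hf : LipschitzWith 1 f) (x : N) :
    |f x| ≤ dist x n0 := by
  have := hf.dist_le_mul x n0
  rwa [h0, Real.dist_eq, sub_zero, NNReal.coe_one, one_mul] at this

theorem no_homeo_free {X : Type} [TopologicalSpace X] [T35Space X] [Infinite N] (n0 : N) :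
    IsEmpty (Cp X ≃ₜ Free n0) := by
  classical
  have hinf : ({n0}ᶜ : Set N).Infinite := (Set.finite_singleton n0).infinite_compl
  let x := hinf.natEmbedding
  let A : ℕ → Set N := fun n => insert n0 ((fun j => (x j : N)) '' Set.Iio n)
  have hA : ∀ n, (A n).Finite := fun n => ((Set.finite_Iio n).image _).insert _
  let u : ℕ → N → ℝ := fun n z => Metric.infDist z (A n)
  have hu0 : ∀ n, u n n0 = 0 := fun n => Metric.infDist_zero_of_mem (Set.mem_insert _ _)
  have hu1 : ∀ n, LipschitzWith 1 (u n) := fun n => Metric.lipschitz_infDist_pt _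
  let lam : ℕ → Lip0 n0 := fun n => ⟨u n, hu0 n, 1, hu1 n⟩
  let ev : Lip0 n0 → Free n0 →ₗ[ℝ] ℝ := fun f => (LinearMap.proj f).comp (Free n0).subtype
  have hw : ∀ (t : ℕ → unitInterval) (n : ℕ), 0 ≤ (1 / 2 : ℝ) ^ n * t n ∧
      (1 / 2 : ℝ) ^ n * t n ≤ (1 / 2) ^ n := fun t n =>
    ⟨mul_nonneg (by positivity) (t n).2.1, mul_le_of_le_one_right (by positivity) (t n).2.2⟩
  have hsumm : ∀ (t : ℕ → unitInterval) (a : ℕ → ℝ) (C : ℝ), (∀ n, |a n| ≤ C) →
      Summable (fun n => (1 / 2 : ℝ) ^ n * t n * a n) ∧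
        |∑' n, (1 / 2 : ℝ) ^ n * t n * a n| ≤ 2 * C := by
    intro t a C h
    have h1 : ∀ n, ‖(1 / 2 : ℝ) ^ n * t n * a n‖ ≤ (1 / 2 : ℝ) ^ n * C := by
      intro n
      rw [Real.norm_eq_abs, abs_mul, abs_of_nonneg (hw t n).1]
      exact mul_le_mul (hw t n).2 (h n) (abs_nonneg _) (by positivity)
    refine ⟨Summable.of_norm_bounded (summable_geometric_two.mul_right C) h1, ?_⟩
    exact tsum_of_norm_bounded (hasSum_geometric_two.mul_right C) h1
  have hb : ∀ e : Free n0, ∃ C, ∀ n, |ev (lam n) e| ≤ C := by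
    intro e
    obtain ⟨c, hc⟩ := e.2 1 one_pos
    refine ⟨1 + ∑ z ∈ c.support, |c z| * dist z n0, fun n => ?_⟩
    have h1 := hc (lam n) 1 (hu1 n)
    have h2 : |c.sum fun z a => a * (lam n).1 z| ≤ ∑ z ∈ c.support, |c z| * dist z n0 := by
      refine (Finset.abs_sum_le_sum_abs _ _).trans (Finset.sum_le_sum fun z _ => ?_)
      rw [abs_mul]
      exact mul_le_mul_of_nonneg_left (lip_bound _ (hu0 n) (hu1 n) z) (abs_nonneg _)
    have h3 : ev (lam n) e = e.1 (lam n) := rfl
    rw [h3]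
    have h4 := abs_add_le (e.1 (lam n) - c.sum fun z a => a * (lam n).1 z)
      (c.sum fun z a => a * (lam n).1 z)
    rw [sub_add_cancel] at h4
    simp only [NNReal.coe_one, mul_one] at h1
    linarith
  refine no_homeo ev IsInducing.subtypeVal lam ?_ hb ?_
  · rw [linearIndependent_iff']
    intro s g hs
    have hδ : ∀ z : N, (fun f : Lip0 n0 => f.1 z) ∈ Free n0 := by
      intro z ε hε
      refine ⟨Finsupp.single z 1, fun f K _ => ?_⟩
      rw [Finsupp.sum_single_index (zero_mul _), one_mul, sub_self, abs_zero]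
      positivity
    intro i
    induction i using Nat.strong_induction_on with
    | _ i ih =>
      intro hi
      have h1 := LinearMap.congr_fun hs ⟨_, hδ (x i)⟩
      rw [LinearMap.sum_apply, Finset.sum_eq_single i] at h1
      · have h3 : g i * u i (x i) = 0 := h1
        have h2 : 0 < u i (x i) := by
          refine ((hA i).isClosed.notMem_iff_infDist_pos ⟨n0, Set.mem_insert _ _⟩).mp ?_
          rintro (h | ⟨j, hj, h⟩)
          · exact (x i).2 h
          · exact (ne_of_lt hj) (x.injective (Subtype.ext h))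
        exact (mul_eq_zero.mp h3).resolve_right h2.ne'
      · intro j hj hji
        show g j * u j (x i) = 0
        rcases lt_or_gt_of_ne hji with h | h
        · rw [ih j h hj, zero_mul]
        · have : u j (x i) = 0 := Metric.infDist_zero_of_mem (Or.inr ⟨i, h, rfl⟩)
          rw [this, mul_zero]
      · intro h; exact absurd hi h
  · intro t
    let v : N → ℝ := fun z => ∑' n, (1 / 2 : ℝ) ^ n * t n * u n z
    have hsz : ∀ z, Summable fun n => (1 / 2 : ℝ) ^ n * t n * u n z := fun z =>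
      (hsumm t _ _ fun n => lip_bound _ (hu0 n) (hu1 n) z).1
    have hv0 : v n0 = 0 := by simp only [v, hu0, mul_zero, tsum_zero]
    have hv1 : LipschitzWith 2 v := by
      refine LipschitzWith.of_dist_le_mul fun z z' => ?_
      rw [Real.dist_eq]
      simp only [v]
      rw [← (hsz z).tsum_sub (hsz z')]
      simp only [← mul_sub]
      refine (hsumm t _ (dist z z') fun n => ?_).2
      have := (hu1 n).dist_le_mul z z'
      rwa [Real.dist_eq, NNReal.coe_one, one_mul] at this
    refine ⟨⟨v, hv0, 2, hv1⟩, fun e => ?_⟩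
    obtain ⟨C, hC⟩ := hb e
    have hse := (hsumm t _ C hC).1
    refine eq_of_forall_dist_le fun ε hε => ?_
    obtain ⟨c, hc⟩ := e.2 (ε / 4) (by positivity)
    have h1 := hc ⟨v, hv0, 2, hv1⟩ 2 hv1
    have h2 : (c.sum fun z a => a * v z) =
        ∑' n, (1 / 2 : ℝ) ^ n * t n * c.sum fun z a => a * u n z := by
      simp only [Finsupp.sum, v, Finset.mul_sum]
      rw [Summable.tsum_finsetSum]
      · refine Finset.sum_congr rfl fun z _ => ?_
        rw [← tsum_mul_left]
        exact tsum_congr fun n => by ring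
      · intro z _
        exact ((hsz z).mul_left (c z)).congr fun n => by ring
    have h3 : ∀ n, |ev (lam n) e - c.sum fun z a => a * u n z| ≤ ε / 4 := by
      intro n
      have := hc (lam n) 1 (hu1 n)
      rw [NNReal.coe_one, mul_one] at this
      exact this
    obtain ⟨h4, h5⟩ := hsumm t _ _ h3
    have h6 : Summable fun n => (1 / 2 : ℝ) ^ n * t n * c.sum fun z a => a * u n z :=
      (hse.sub h4).congr fun n => by ring
    simp only [mul_sub] at h5
    rw [hse.tsum_sub h6, ← h2] at h5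
    have h7 : ev ⟨v, hv0, 2, hv1⟩ e = e.1 ⟨v, hv0, 2, hv1⟩ := rfl
    rw [h7, Real.dist_eq]
    simp only [NNReal.coe_ofNat] at h1
    rw [abs_le] at h1 h5 ⊢
    constructor <;> linarith [h1.1, h1.2, h5.1, h5.2]

end free

end Pool.Agent.H421Z.TExt
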